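import Pool.Agent.Helper29.PD.H3
import Pool.Agent.Helper41.PD.Lab

/-!
# EV3, block (7c): the tail bound in the box format of block (5)
-/

set_option autoImplicit false

namespace Pool.Agent.Helper29.PD

open Matrix Polynomial Pool.Agent.Helper85.Exp Pool.Agent.Helper60.EV2 Pool.Agent.Helper29.Lab
  Pool.Agent.Helper41.PD

section

variable {P : Type} [DecidableEq P] {G : Sh P} {C : Finset P} {τ : P → ℕ}

/-- the labels as elements of `C` -/
noncomputable def lbc (H : Cut G.nxt G.op C τ) (p : P) : {x // x ∈ C} := ⟨H.lab p, H.lab_mem p⟩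

/-- the order of the strands -/
def Ord (H : Cut G.nxt G.op C τ) (p p' : P) : Prop :=
  ∀ e e', (e = p ∨ e = G.op p) → (e' = p' ∨ e' = G.op p') → H.lab e = H.lab e' → H.dep e < H.dep e'

theorem cutd_of_list (H : Cut G.nxt G.op C τ) (hop : ∀ p, G.op p ≠ p) {X : List P}
    (hX : ∀ p, p ∈ X ↔ G.lf p = true) (ho : X.Pairwise (Ord H)) : Cutd G C (pos G X) (lbc H) where
  op_ne := hop
  top p := by
    unfold pos
    have h1 := G.lf_op p (hop p)
    by_cases hp : G.lf p = true
    · rw [hp] at h1
      simp [h1, hp, G.op_op]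
    · have hp' : G.lf p = false := by simpa using hp
      rw [hp'] at h1
      simp [h1, hp']
  tnx e he := by
    have hm : ∀ p : P, (if G.lf p = true then p else G.op p) ∈ X := by
      intro p
      rw [hX]
      split_ifs with hp
      · exact hp
      · rw [G.lf_op p (hop p)]
        simpa using hp
    have hr : ∀ p : P, p = (if G.lf p = true then p else G.op p) ∨
        p = G.op (if G.lf p = true then p else G.op p) := by
      intro p
      split_ifs
      · exact Or.inl rfl
      · exact Or.inr (G.op_op p).symm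
    set q := (if G.lf e = true then e else G.op e) with hq
    set q' := (if G.lf (G.nxt e) = true then G.nxt e else G.op (G.nxt e)) with hq'
    show X.idxOf q < X.idxOf q'
    have hmq := hm e
    have hmq' := hm (G.nxt e)
    rw [← hq] at hmq
    rw [← hq'] at hmq'
    have htau := H.mono e he
    have hne : q ≠ q' := by
      intro h
      have h1 := hr e
      have h2 := hr (G.nxt e)
      rw [← hq] at h1
      rw [← hq', ← h] at h2
      have h3 : τ e = τ q := by
        rcases h1 with h1 | h1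
        · rw [← h1]
        · rw [h1, H.τ_op]
      have h4 : τ (G.nxt e) = τ q := by
        rcases h2 with h2 | h2
        · rw [h2]
        · rw [h2, H.τ_op]
      omega
    rcases lt_trichotomy (X.idxOf q) (X.idxOf q') with h | h | h
    · exact h
    · exact absurd ((List.idxOf_inj hmq).1 h) hne
    · exfalso
      have h1 := List.pairwise_iff_getElem.1 ho _ _ (List.idxOf_lt_length_of_mem hmq')
        (List.idxOf_lt_length_of_mem hmq) h
      rw [List.getElem_idxOf, List.getElem_idxOf] at h1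
      have h2 := h1 (sc G.nxt G.op e) e (by
        have := hr (G.nxt e)
        rw [← hq'] at this
        unfold sc
        rcases this with h | h
        · right; rw [← h]
        · left; rw [h, G.op_op]) (hr e) (H.lab_sc he)
      rw [H.dep_sc he] at h2
      omega
  tinj p q hpq := by
    have hm : ∀ p : P, (if G.lf p = true then p else G.op p) ∈ X := by
      intro p
      rw [hX]
      split_ifs with hp
      · exact hp
      · rw [G.lf_op p (hop p)]
        simpa using hp
    have e := (List.idxOf_inj (hm p)).1 hpq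
    by_cases hp : G.lf p = true <;> by_cases hq : G.lf q = true
    · rw [if_pos hp, if_pos hq] at e
      exact Or.inl e.symm
    · rw [if_pos hp, if_neg hq] at e
      right
      rw [e, G.op_op]
    · rw [if_neg hp, if_pos hq] at e
      exact Or.inr e.symm
    · rw [if_neg hp, if_neg hq] at e
      left
      rw [← G.op_op q, ← e, G.op_op]
  lbC e he := Subtype.ext (H.lab_sc_mem he)
  lbN e he := Subtype.ext (H.lab_sc he)

/-- the crossings of the boxes -/
def crs (Bs : List (List P × List (P × ℕ))) : List P := Bs.flatMap fun b => b.2.map Prod.fst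

/-- A list of boxes: the labels of a box, from the travel-left to the travel-right, and the crossings (the passage
`p` with `lf p = true`, and the position of the label of `p`). -/
structure Bxs (H : Cut G.nxt G.op C τ) (Bs : List (List P × List (P × ℕ))) : Prop where
  nd : ∀ b ∈ Bs, b.1.Nodup
  mem : ∀ b ∈ Bs, ∀ x ∈ b.1, x ∈ C
  let_ : ∀ b ∈ Bs, ∀ c ∈ b.2, b.1[c.2]? = some (H.lab c.1) ∧ b.1[c.2 + 1]? = some (H.lab (G.op c.1))
  all : ∀ p, p ∈ crs Bs ↔ G.lf p = true
  ord : (crs Bs).Pairwise (Ord H)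

omit [DecidableEq P] in
theorem Ord.ne {H : Cut G.nxt G.op C τ} {p p' : P} (h : Ord H p p') : p ≠ p' := by
  rintro rfl
  exact lt_irrefl _ (h p p (Or.inl rfl) (Or.inl rfl) rfl)

omit [DecidableEq P] in
theorem bw_attach (H : Cut G.nxt G.op C τ) (x0 : {x // x ∈ C}) (b : List P × List (P × ℕ))
    (hm : ∀ x ∈ b.1, x ∈ C)
    (hl : ∀ c ∈ b.2, b.1[c.2]? = some (H.lab c.1) ∧ b.1[c.2 + 1]? = some (H.lab (G.op c.1))) :
    bw x0 (b.1.attachWith (· ∈ C) hm, b.2.map Prod.snd) =
      (b.2.map Prod.fst).map fun p => (lbc H p, lbc H (G.op p)) := by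
  unfold bw
  rw [List.map_map, List.map_map]
  refine List.map_congr_left fun c hc => ?_
  obtain ⟨h1, h2⟩ := hl c hc
  obtain ⟨g1, e1⟩ := List.getElem?_eq_some_iff.1 h1
  obtain ⟨g2, e2⟩ := List.getElem?_eq_some_iff.1 h2
  simp only [Function.comp_apply]
  rw [List.getD_eq_getElem _ _ (by rwa [List.length_attachWith]),
    List.getD_eq_getElem _ _ (by rwa [List.length_attachWith])]
  refine Prod.ext (Subtype.ext ?_) (Subtype.ext ?_)
  · simpa [lbc] using e1
  · simpa [lbc] using e2

end

/-- **Tail bound for cut shadows with boxes.** -/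
theorem h3_cut (N K A : ℕ) {r₀ R : ℝ} (hr₀ : 0 < r₀) :
    ∃ c : ℝ, 0 < c ∧ ∃ C₀ : ℝ, ∀ (P : Type) [Fintype P] [DecidableEq P] (G : Sh P) (C : Finset P)
      (τ : P → ℕ) (H : Cut G.nxt G.op C τ), (∀ p, G.op p ≠ p) → C.card ≤ N →
      ∀ Bs : List (List P × List (P × ℕ)), Bxs H Bs → Bs.length ≤ K →
      ∀ x0 ∈ C, ∀ n : ℤ, |n| ≤ A →
      (∀ D : Dg G, (∀ i, ∃ k : ℕ, D.tr^[k] (G.nxt x0) = i) → Des D (G.nxt x0) → wr D = n) →
      ∀ nab : Dg G → ℤ[X], Cw X 1 (G.nxt x0) nab →
      ∀ D : Dg G, (∀ i, D.st i = .pos) →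
      ∀ z : ℂ, r₀ ≤ ‖z‖ → ‖z‖ ≤ R → ∀ a : ℝ, 0 < a → a ^ 2 = ‖z‖ * a + 1 →
      ‖aeval z (nab D)‖ ≤ C₀ * a ^ (crs Bs).length *
        Real.exp (-(c * (crs Bs).length * (1 - Real.cos (2 * z.arg)))) := by
  obtain ⟨c, hc, C₁, HH⟩ := h3_boxes N K A (R := R) hr₀
  refine ⟨c, hc, C₁, ?_⟩
  intro P _ _ G C τ H hop hcard Bs hB hK x0 hx0 n hn hw nab hnab D hD z hz1 hz2 a ha h2
  have hnd : (crs Bs).Nodup := hB.ord.imp fun h => h.ne
  let f : {b // b ∈ Bs} → List {x // x ∈ C} × List ℕ :=
    fun b => (b.1.1.attachWith (· ∈ C) (hB.mem b.1 b.2), b.1.2.map Prod.snd)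
  refine HH P G C (pos G (crs Bs)) (lbc H) (cutd_of_list H hop hB.all hB.ord) hcard (crs Bs) hB.all
    (pairwise_pos hB.all hnd) ⟨x0, hx0⟩ (Bs.attach.map f) (by simpa using hK) ?_ ?_ ?_ n hn hw nab hnab D hD
    z hz1 hz2 a ha h2
  · intro b hb
    obtain ⟨b', _, rfl⟩ := List.mem_map.1 hb
    have := hB.nd b'.1 b'.2
    show (List.attachWith _ _ _).Nodup
    rw [List.attachWith]
    exact this.pmap fun _ _ _ _ h => congrArg Subtype.val h
  · intro b hb a' ha'
    obtain ⟨b', _, rfl⟩ := List.mem_map.1 hb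
    obtain ⟨c', hc', rfl⟩ := List.mem_map.1 ha'
    have h1 := (hB.let_ b'.1 b'.2 c' hc').2
    obtain ⟨g, _⟩ := List.getElem?_eq_some_iff.1 h1
    show c'.2 + 1 < (List.attachWith _ _ _).length
    rwa [List.length_attachWith]
  · have e : (Bs.attach.map f).flatMap (bw ⟨x0, hx0⟩) =
        (crs Bs).map fun p => (lbc H p, lbc H (G.op p)) := by
      unfold crs
      rw [List.flatMap_map, List.map_flatMap]
      have e1 : ∀ h : List P × List (P × ℕ) → List ({x // x ∈ C} × {x // x ∈ C}),
          Bs.attach.flatMap (fun b => h b.1) = Bs.flatMap h := by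
        intro h
        conv_rhs => rw [← List.attach_map_subtype_val Bs, List.flatMap_map]
      rw [← e1]
      refine List.flatMap_congr fun b _ => ?_
      exact bw_attach H ⟨x0, hx0⟩ b.1 (hB.mem b.1 b.2) (hB.let_ b.1 b.2)
    rw [e]
    exact Sw.refl _

end Pool.Agent.Helper29.PD
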