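import Pool.Agent.Helper2.PD.Cases
import Pool.Agent.Helper57.PD.Alpha
import Pool.Agent.Helper52.PD.CutS
import Pool.Agent.Helper41.PD.Adapt
import Pool.Agent.Helper60.PD.Arc
import Pool.Agent.Helper29.PD.H3Cut
import Pool.Agent.Helper69.S4.Colour

/-!
# S4, the coherent case: a plane shadow with exactly two zero faces is a closed word of adjacent columns

(1) a cut with exactly one edge on every Seifert circle; circles are determined by their height;
(2) the colouring of the faces along the time of the cut.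
-/

set_option autoImplicit false

namespace Pool.Agent.Helper29.PD

open Pool.Agent.Helper85.Exp Pool.Agent.Helper2.PD Pool.Agent.Helper41.PD Pool.Agent.Helper43.Pln
  Pool.Agent.Helper60.PD

variable {P : Type} [Fintype P] {G : Sh P}

/-! ### The cut -/

open Classical in
/-- With two zero faces there is one face without edges on its ... side each. -/
theorem one_top_bot (hG : Plane G) (hz : zeros G = 2) {κ : Face G → ℤ}
    (hκ : ∀ e, κ (Lf G e) = κ (Rf G e) + 1) [Fintype (Face G)] :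
    (Finset.univ.filter fun f : Face G => ∀ e, Rf G e ≠ f).card = 1 ∧
      (Finset.univ.filter fun f : Face G => ∀ e, Lf G e ≠ f).card = 1 := by
  obtain ⟨p⟩ := nonempty_of hG
  set A := Finset.univ.filter fun f : Face G => ∀ e, Rf G e ≠ f with hA
  set B := Finset.univ.filter fun f : Face G => ∀ e, Lf G e ≠ f with hB
  have hA1 : 0 < A.card := by
    obtain ⟨a, ha, -⟩ := Pool.Agent.Helper52.PD.exists_top (Lf G) (Rf G) κ hκ (Lf G p)
    exact Finset.card_pos.2 ⟨a, Finset.mem_filter.2 ⟨Finset.mem_univ _, ha⟩⟩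
  have hB1 : 0 < B.card := by
    obtain ⟨b, hb, -⟩ := Pool.Agent.Helper52.PD.exists_bot (Lf G) (Rf G) κ hκ (Lf G p)
    exact Finset.card_pos.2 ⟨b, Finset.mem_filter.2 ⟨Finset.mem_univ _, hb⟩⟩
  have hdis : Disjoint A B := by
    rw [Finset.disjoint_left]
    intro f h1 h2
    have h3 := (Finset.mem_filter.1 h1).2
    have h4 := (Finset.mem_filter.1 h2).2
    obtain ⟨e, he | he⟩ := exists_side f
    · exact h4 e he
    · exact h3 e he
  have hsub : A ∪ B ⊆ Finset.univ.filter fun f : Face G => kf G f = 0 := by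
    intro f hf
    rw [Finset.mem_filter]
    refine ⟨Finset.mem_univ _, ?_⟩
    rcases Finset.mem_union.1 hf with h | h
    · have h1 := (Finset.mem_filter.1 h).2
      rw [kf, Finite.card_eq_zero_iff]
      exact ⟨fun x => h1 x.1 x.2.2⟩
    · have h1 := (Finset.mem_filter.1 h).2
      rw [kf_eq_S hG.cross, Finite.card_eq_zero_iff]
      exact ⟨fun x => h1 _ x.2.2⟩
  have hc := Finset.card_le_card hsub
  rw [Finset.card_union_of_disjoint hdis] at hc
  have hz' : (Finset.univ.filter fun f : Face G => kf G f = 0).card = 2 := by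
    rw [← hz, zeros, Nat.card_eq_fintype_card, Fintype.card_subtype]
  omega

/-- the data of a coherent cut -/
structure Coh (G : Sh P) (κ : Face G → ℤ) (b₀ : Face G) (C : Finset P) (tau : P → ℕ) (lb : P → {x // x ∈ C}) : Prop where
  lt : ∀ f, f ≠ b₀ → κ b₀ < κ f
  ex : ∀ f, f ≠ b₀ → ∃ e, Lf G e = f
  cd : Cutd G C tau lb
  card : C.card = circles G
  lev : ∀ e, κ (Lf G (lb e).1) = κ (Lf G e)
  uniq : ∀ x y : {x // x ∈ C}, κ (Lf G x.1) = κ (Lf G y.1) → x = y
  LR : ∀ f, (∃ e, Lf G e = f) → (∃ e, Rf G e = f) → ((∃ e ∈ C, Lf G e = f) ↔ ∃ e ∈ C, Rf G e = f)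

theorem lev_sc (ho : ∀ i, G.op i ≠ i) {κ : Face G → ℤ} (hκ : ∀ i, κ (Lf G i) = κ (Rf G i) + 1) (n : ℕ)
    (e : P) : κ (Lf G ((sc G.nxt G.op)^[n] e)) = κ (Lf G e) := by
  induction n with
  | zero => rfl
  | succ n ih =>
    rw [Function.iterate_succ_apply']
    unfold sc
    rw [Pool.Agent.Helper57.PD.kappa_seifert ho κ hκ, ← ih]
    rfl

theorem exists_coh (hG : Plane G) (hz : zeros G = 2) {κ : Face G → ℤ}
    (hκ : ∀ e, κ (Lf G e) = κ (Rf G e) + 1) :
    ∃ (b₀ : Face G) (C : Finset P) (tau : P → ℕ) (lb : P → {x // x ∈ C}), Coh G κ b₀ C tau lb := by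
  classical
  haveI : Fintype (Face G) := Fintype.ofFinite _
  obtain ⟨hA, hB⟩ := one_top_bot hG hz hκ
  set H := (Finset.univ.image fun e => κ (Lf G e)).card with hH
  obtain ⟨C, τ, hC, t1, t2, hLR⟩ := Pool.Agent.Helper52.PD.cut G.nxt G.op G.op_op hG.cross (Lf G) (Rf G) κ hκ
    (fun y hy => circ_int hG.conn hG.cross hG.genus y hy) (a := 1) (b := 1) (s := H) le_rfl hA.le hB.le
  have H0 : Cut G.nxt G.op C τ := ⟨G.op_op, t1, t2⟩
  obtain ⟨τ', H1, hinj⟩ := H0.refine_inj
  -- circles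
  have hq : ∀ f, (seifert G).SameCycle (H1.lab f) f := by
    intro f
    have h1 := H1.sc_iter_lab f
    refine ⟨(H1.dep f + 1 : ℕ), ?_⟩
    have h2 : ∀ (n : ℕ) (e : P), ((seifert G) ^ n) e = (sc G.nxt G.op)^[n] e := by
      intro n
      induction n with
      | zero => intro e; rfl
      | succ n ih =>
        intro e
        rw [pow_succ', Equiv.Perm.mul_apply, ih, Function.iterate_succ_apply']
        rfl
    rw [zpow_natCast, h2]
    exact h1
  let q : {x // x ∈ C} → Quotient (Equiv.Perm.SameCycle.setoid (seifert G)) := fun e => Quotient.mk _ e.1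
  have hqs : Function.Surjective q := by
    intro x
    obtain ⟨e, rfl⟩ := Quotient.exists_rep x
    exact ⟨⟨H1.lab e, H1.lab_mem e⟩, Quotient.sound (hq e)⟩
  have hlev : ∀ e, κ (Lf G (seifert G e)) = κ (Lf G e) :=
    fun e => Pool.Agent.Helper57.PD.kappa_seifert hG.cross κ hκ e
  have hHle : H ≤ circles G := Pool.Agent.Helper52.PD.card_image_le_cycles (seifert G)
    (fun e => κ (Lf G e)) hlev le_rfl
  have hcle : circles G ≤ C.card := by
    have := Nat.card_le_card_of_surjective q hqs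
    rwa [Nat.card_eq_fintype_card (α := {x // x ∈ C}), Fintype.card_coe] at this
  rw [one_mul, one_mul] at hC
  have hcard : C.card = circles G := by omega
  have hHeq : H = circles G := by omega
  have hqi : Function.Injective q := by
    refine ((Nat.bijective_iff_surjective_and_card q).2 ⟨hqs, ?_⟩).1
    rw [Nat.card_eq_fintype_card (α := {x // x ∈ C}), Fintype.card_coe, hcard]
    rfl
  -- the heights are injective on the circles
  have hk : ∀ e e' : P, (seifert G).SameCycle e e' → κ (Lf G e) = κ (Lf G e') := by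
    intro e e' h
    exact Pool.Agent.Helper52.PD.eq_of_sameCycle (seifert G) (fun e => κ (Lf G e)) hlev h
  let kq : Quotient (Equiv.Perm.SameCycle.setoid (seifert G)) → (Finset.univ.image fun e => κ (Lf G e) : Finset ℤ) :=
    Quotient.lift (fun e => ⟨κ (Lf G e), Finset.mem_image.2 ⟨e, Finset.mem_univ _, rfl⟩⟩)
      (fun e e' h => Subtype.ext (hk e e' h))
  have hks : Function.Surjective kq := by
    rintro ⟨k, hk'⟩
    obtain ⟨e, -, rfl⟩ := Finset.mem_image.1 hk'
    exact ⟨Quotient.mk _ e, rfl⟩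
  haveI : Finite (Quotient (Equiv.Perm.SameCycle.setoid (seifert G))) := Quotient.finite _
  have hki : Function.Injective kq := by
    refine ((Nat.bijective_iff_surjective_and_card kq).2 ⟨hks, ?_⟩).1
    rw [Nat.card_eq_fintype_card (α := (Finset.univ.image fun e => κ (Lf G e) : Finset ℤ)), Fintype.card_coe, ← hH, hHeq]
    rfl
  obtain ⟨b₀, hb₀⟩ := Finset.card_eq_one.1 hB
  have hb : ∀ f : Face G, (∀ e, Lf G e ≠ f) → f = b₀ := by
    intro f hf
    have : f ∈ (Finset.univ.filter fun f : Face G => ∀ e, Lf G e ≠ f) := Finset.mem_filter.2 ⟨Finset.mem_univ _, hf⟩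
    rw [hb₀] at this
    exact Finset.mem_singleton.1 this
  have hlt : ∀ f, f ≠ b₀ → κ b₀ < κ f := by
    intro f hf
    obtain ⟨b, h1, h2⟩ := Pool.Agent.Helper52.PD.exists_bot (Lf G) (Rf G) κ hκ f
    have h3 := hb b h1
    subst h3
    rcases Relation.ReflTransGen.cases_head h2 with h4 | ⟨g, ⟨e, he1, he2⟩, h5⟩
    · exact absurd h4 hf
    · have h6 := Pool.Agent.Helper52.PD.reach_mono (Lf G) (Rf G) κ (fun e => by have := hκ e; omega) h5
      have h7 := hκ e
      rw [he1, he2] at h7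
      omega
  have hex : ∀ f, f ≠ b₀ → ∃ e, Lf G e = f := by
    intro f hf
    by_contra hcon
    push Not at hcon
    exact hf (hb f hcon)
  refine ⟨b₀, C, τ', lbc H1, hlt, hex, ⟨hG.cross, fun p => H1.τ_op p, fun e he => H1.mono e he, hinj,
    fun e he => Subtype.ext (H1.lab_sc_mem he), fun e he => Subtype.ext (H1.lab_sc he)⟩, hcard, ?_, ?_, hLR⟩
  · intro e
    exact hk _ _ (hq e)
  · intro x y hxy
    apply hqi
    apply hki
    exact Subtype.ext hxy

/-! ### Columns -/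

section columns

variable {κ : Face G → ℤ} {b₀ : Face G} {C : Finset P} {tau : P → ℕ} {lb : P → {x // x ∈ C}}

theorem Coh.le (h : Coh G κ b₀ C tau lb) (f : Face G) : κ b₀ ≤ κ f := by
  by_cases hf : f = b₀
  · rw [hf]
  · exact (h.lt f hf).le

/-- neighbouring arcs see the same face -/
def Jn (G : Sh P) (κ : Face G → ℤ) (c : {x // x ∈ C} → P) : Prop :=
  ∀ x y : {x // x ∈ C}, κ (Lf G x.1) = κ (Lf G y.1) + 1 → Rf G (c x) = Lf G (c y)

theorem Coh.jn_nil (h : Coh G κ b₀ C tau lb) (hκ : ∀ e, κ (Lf G e) = κ (Rf G e) + 1) :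
    Jn G κ (cur G lb []) := by
  intro x y hxy
  rw [cur_nil, cur_nil]
  have h1 := hκ x.1
  have h2 : κ (Rf G x.1) = κ (Lf G y.1) := by omega
  have h3 : Rf G x.1 ≠ b₀ := by
    intro h3
    have h4 := hκ y.1
    have h5 : κ b₀ ≤ κ (Rf G y.1) := h.le _
    rw [h3] at h2
    omega
  obtain ⟨e, he, he'⟩ := (h.LR _ (h.ex _ h3) ⟨x.1, rfl⟩).2 ⟨x.1, x.2, rfl⟩
  have h4 : (⟨e, he⟩ : {x // x ∈ C}) = y := h.uniq _ _ (by rw [← h2, ← he'])
  rw [← he', ← h4]

/-- one crossing -/
theorem Coh.step_eq (h : Coh G κ b₀ C tau lb) {c : {x // x ∈ C} → P} {p : P} (hp : G.lf p = true)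
    (h1 : c (lb p) = G.nxt.symm (G.op p)) (h2 : c (lb (G.op p)) = G.nxt.symm p) (x : {x // x ∈ C}) :
    (x ≠ lb (G.op p) → Lf G (stp G lb c p x) = Lf G (c x)) ∧
      (x ≠ lb p → Rf G (stp G lb c p x) = Rf G (c x)) := by
  have ho := h.cd.op_ne
  by_cases e1 : x = lb p
  · refine ⟨fun _ => ?_, fun hx => absurd e1 hx⟩
    rw [e1, stp_left, h1]
    exact corner_W hp (ho p)
  · by_cases e2 : x = lb (G.op p)
    · refine ⟨fun hx => absurd e2 hx, fun _ => ?_⟩
      rw [e2, stp_right h.cd, h2]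
      exact (corner_E hp (ho p)).symm
    · rw [stp_of c (Ne.symm e1) (Ne.symm e2)]
      exact ⟨fun _ => rfl, fun _ => rfl⟩

theorem Coh.lev_lb (h : Coh G κ b₀ C tau lb) (hκ : ∀ e, κ (Lf G e) = κ (Rf G e) + 1) {p : P} (hp : G.lf p = true) :
    κ (Lf G (lb p).1) = κ (Lf G (lb (G.op p)).1) + 1 := by
  rw [h.lev, h.lev, ← corner_N hp]
  exact hκ p

theorem Coh.jn_step (h : Coh G κ b₀ C tau lb) (hκ : ∀ e, κ (Lf G e) = κ (Rf G e) + 1)
    {c : {x // x ∈ C} → P} {p : P} (hp : G.lf p = true)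
    (h1 : c (lb p) = G.nxt.symm (G.op p)) (h2 : c (lb (G.op p)) = G.nxt.symm p) (hJ : Jn G κ c) :
    Jn G κ (stp G lb c p) := by
  intro x y hxy
  have hl := h.lev_lb hκ hp
  by_cases e1 : x = lb p
  · have e2 : y = lb (G.op p) := h.uniq _ _ (by rw [e1] at hxy; omega)
    rw [e1, e2, stp_left, stp_right h.cd]
    exact corner_N hp
  · have e2 : y ≠ lb (G.op p) := by
      rintro rfl
      exact e1 (h.uniq _ _ (by omega))
    rw [(h.step_eq hp h1 h2 x).2 e1, (h.step_eq hp h1 h2 y).1 e2]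
    exact hJ x y hxy

/-- the list of the crossings -/
structure Srt (G : Sh P) (tau : P → ℕ) (L : List P) : Prop where
  all : ∀ p, p ∈ L ↔ G.lf p = true
  srt : L.Pairwise fun a b => tau a < tau b

theorem Coh.before (h : Coh G κ b₀ C tau lb) {L A B : List P} {p : P} (hL : Srt G tau L) (e : L = A ++ p :: B) :
    G.lf p = true ∧ cur G lb A (lb p) = G.nxt.symm (G.op p) ∧ cur G lb A (lb (G.op p)) = G.nxt.symm p := by
  have hp : G.lf p = true := (hL.all p).1 (by rw [e]; simp)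
  have hs := hL.srt
  rw [e, List.pairwise_append, List.pairwise_cons] at hs
  obtain ⟨s1, ⟨s2, s3⟩, s4⟩ := hs
  have hall : ∀ f, tau f < tau p → f ∈ A ∨ G.op f ∈ A := by
    intro f hf
    have key : ∀ f, tau f < tau p → G.lf f = true → f ∈ A := by
      intro f hf hl
      have h1 := (hL.all f).2 hl
      rw [e] at h1
      rcases List.mem_append.1 h1 with h2 | h2
      · exact h2
      · rcases List.mem_cons.1 h2 with h3 | h3
        · rw [h3] at hf
          exact absurd hf (lt_irrefl _)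
        · exact absurd (s2 f h3) (by omega)
    by_cases hl : G.lf f = true
    · exact Or.inl (key f hf hl)
    · right
      refine key _ (by rw [h.cd.top]; exact hf) ?_
      rw [G.lf_op f (h.cd.op_ne f)]
      simpa using hl
  refine ⟨hp, cur_before h.cd s1 (fun a ha => s4 a ha p (by simp)) hall, ?_⟩
  have h2 := cur_before h.cd (p := G.op p) s1 (fun a ha => by rw [h.cd.top]; exact s4 a ha p (by simp))
    (fun f hf => hall f (by rwa [h.cd.top] at hf))
  rwa [G.op_op] at h2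

theorem Coh.jn (h : Coh G κ b₀ C tau lb) (hκ : ∀ e, κ (Lf G e) = κ (Rf G e) + 1)
    {L : List P} (hL : Srt G tau L) : ∀ (A B : List P), L = A ++ B → Jn G κ (cur G lb A) := by
  intro A
  induction A using List.reverseRecOn with
  | nil => intro _ _; exact h.jn_nil hκ
  | append_singleton A p ih =>
    intro B e
    have e' : L = A ++ p :: B := by rw [e]; simp
    obtain ⟨hp, h1, h2⟩ := h.before hL e'
    have := h.jn_step hκ hp h1 h2 (ih _ e')
    intro x y hxy
    rw [cur_append, cur_append]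
    exact this x y hxy

/-- the levels of the arcs -/
theorem Coh.levels (hG : Plane G) (h : Coh G κ b₀ C tau lb) (hκ : ∀ e, κ (Lf G e) = κ (Rf G e) + 1) (j : ℕ) :
    (∃ x : {x // x ∈ C}, κ (Lf G x.1) = κ b₀ + j) ↔ 1 ≤ j ∧ j ≤ circles G := by
  classical
  obtain ⟨p⟩ := nonempty_of hG
  set I := (Finset.univ : Finset {x // x ∈ C}).image fun x => κ (Lf G x.1) with hI
  have hcard : I.card = circles G := by
    rw [hI, Finset.card_image_of_injective _ (fun x y hxy => h.uniq x y hxy), Finset.card_univ, Fintype.card_coe, h.card]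
  have hmem : ∀ e, κ (Lf G e) ∈ I := by
    intro e
    rw [hI, Finset.mem_image]
    exact ⟨lb e, Finset.mem_univ _, h.lev e⟩
  have hgt : ∀ k ∈ I, κ b₀ < k := by
    intro k hk
    rw [hI, Finset.mem_image] at hk
    obtain ⟨x, -, rfl⟩ := hk
    have h1 := hκ x.1
    have h2 := h.le (Rf G x.1)
    omega
  have hdown : ∀ k ∈ I, ∀ k', κ b₀ < k' → k' ≤ k → k' ∈ I := by
    intro k hk k' h1 h2
    by_contra hcon
    have hinv : ∀ e, (k' ≤ κ (Lf G e) ↔ k' ≤ κ (Rf G e)) := by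
      intro e
      have h3 := hκ e
      have h4 : κ (Lf G e) ≠ k' := fun h4 => hcon (h4 ▸ hmem e)
      omega
    rw [hI, Finset.mem_image] at hk
    obtain ⟨x, -, rfl⟩ := hk
    have := face_conn hG.conn hG.cross (p := fun f => k' ≤ κ f) hinv (f := Lf G x.1) h2 b₀
    omega
  have hne : I.Nonempty := ⟨_, hmem p⟩
  have hIoc : I = Finset.Ioc (κ b₀) (I.max' hne) := by
    ext k
    rw [Finset.mem_Ioc]
    constructor
    · intro hk
      exact ⟨hgt k hk, I.le_max' k hk⟩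
    · rintro ⟨h1, h2⟩
      exact hdown _ (I.max'_mem hne) k h1 h2
  have hmax : I.max' hne = κ b₀ + circles G := by
    have h1 := congrArg Finset.card hIoc
    rw [hcard, Int.card_Ioc] at h1
    have h2 := hgt _ (I.max'_mem hne)
    omega
  have e1 : (∃ x : {x // x ∈ C}, κ (Lf G x.1) = κ b₀ + j) ↔ (κ b₀ + j) ∈ I := by
    rw [hI, Finset.mem_image]
    constructor
    · rintro ⟨x, hx⟩
      exact ⟨x, Finset.mem_univ _, hx⟩
    · rintro ⟨x, -, hx⟩
      exact ⟨x, hx⟩
  rw [e1, hIoc, Finset.mem_Ioc, hmax]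
  omega

open Classical in
/-- the colours of the columns after `t` crossings -/
noncomputable def colv (G : Sh P) (κ : Face G → ℤ) (b₀ : Face G) (lb : P → {x // x ∈ C}) (L : List P)
    (c : Face G → ℂ) (t j : ℕ) : ℂ :=
  if j = 0 then c b₀ else
    if h : ∃ x : {x // x ∈ C}, κ (Lf G x.1) = κ b₀ + j then c (Lf G (cur G lb (L.take t) h.choose)) else 0

theorem colv_zero (L : List P) (c : Face G → ℂ) (t : ℕ) : colv G κ b₀ lb L c t 0 = c b₀ := if_pos rfl

theorem Coh.colv_eq (h : Coh G κ b₀ C tau lb) (hκ : ∀ e, κ (Lf G e) = κ (Rf G e) + 1) (L : List P) (c : Face G → ℂ)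
    (t j : ℕ) {x : {x // x ∈ C}} (hx : κ (Lf G x.1) = κ b₀ + j) :
    colv G κ b₀ lb L c t j = c (Lf G (cur G lb (L.take t) x)) := by
  have h1 := hκ x.1
  have h2 := h.le (Rf G x.1)
  have hj : j ≠ 0 := by omega
  have hex : ∃ x : {x // x ∈ C}, κ (Lf G x.1) = κ b₀ + j := ⟨x, hx⟩
  unfold colv
  rw [if_neg hj, dif_pos hex, h.uniq hex.choose x (by rw [hex.choose_spec, hx])]

/-- the letter of a crossing -/
noncomputable def ltr (G : Sh P) (κ : Face G → ℤ) (b₀ : Face G) (p : P) : ℕ := (κ (Rf G p) - κ b₀ - 1).toNat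

theorem Coh.ltr_eq (h : Coh G κ b₀ C tau lb) (hκ : ∀ e, κ (Lf G e) = κ (Rf G e) + 1) {p : P} (hp : G.lf p = true) :
    κ (Lf G (lb (G.op p)).1) = κ b₀ + (ltr G κ b₀ p + 1 : ℕ) ∧
      κ (Lf G (lb p).1) = κ b₀ + (ltr G κ b₀ p + 2 : ℕ) := by
  have h1 : κ (Lf G (lb (G.op p)).1) = κ (Rf G p) := by rw [h.lev, corner_N hp]
  have h2 := h.lev_lb hκ hp
  have h3 := hκ (G.op p)
  have h4 := h.le (Rf G (G.op p))
  rw [← corner_N hp] at h3
  unfold ltr
  push_cast
  omega

open Pool.Agent.Helper69.S4 in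
theorem Coh.steps (h : Coh G κ b₀ C tau lb) (hκ : ∀ e, κ (Lf G e) = κ (Rf G e) + 1) {L : List P} (hL : Srt G tau L)
    {s : ℂ} {c : Face G → ℂ}
    (hcol : ∀ p, G.lf p = true → c (Rf G p) + s ^ 2 * c (Lf G (G.nxt.symm p)) = s * (c (Lf G p) + c (Rf G (G.op p))))
    (n : ℕ) (hn : ∀ j : ℕ, (∃ x : {x // x ∈ C}, κ (Lf G x.1) = κ b₀ + j) ↔ 1 ≤ j ∧ j ≤ n + 1) :
    Steps s n (L.map (ltr G κ b₀)) (colv G κ b₀ lb L c) := by
  intro t ht
  rw [List.length_map] at ht
  rw [List.getElem_map]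
  set p := L[t] with hpdef
  have hsplit : L = L.take t ++ p :: L.drop (t + 1) := by
    rw [hpdef, List.getElem_cons_drop, List.take_append_drop]
  obtain ⟨hp, h1, h2⟩ := h.before hL hsplit
  have htk : L.take (t + 1) = L.take t ++ [p] := by
    rw [hpdef, List.take_append_getElem]
  have hcur : ∀ x, cur G lb (L.take (t + 1)) x = stp G lb (cur G lb (L.take t)) p x := by
    intro x
    rw [htk, cur_append]
  obtain ⟨l1, l2⟩ := h.ltr_eq hκ hp
  set a := ltr G κ b₀ p with ha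
  constructor
  · intro j hj hja
    rcases Nat.eq_zero_or_pos j with h0 | h0
    · rw [h0, colv_zero, colv_zero]
    · obtain ⟨x, hx⟩ := (hn j).2 ⟨h0, hj⟩
      rw [h.colv_eq hκ L c (t + 1) j hx, h.colv_eq hκ L c t j hx, hcur]
      rw [(h.step_eq hp h1 h2 x).1]
      rintro rfl
      rw [l1] at hx
      apply hja
      omega
  · have e1 : colv G κ b₀ lb L c (t + 1) (a + 1) = c (Rf G p) := by
      rw [h.colv_eq hκ L c (t + 1) (a + 1) l1, hcur, stp_right h.cd, ← corner_N hp]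
    have e2 : colv G κ b₀ lb L c t (a + 1) = c (Lf G (G.nxt.symm p)) := by
      rw [h.colv_eq hκ L c t (a + 1) l1, h2]
    have e3 : colv G κ b₀ lb L c t (a + 2) = c (Lf G p) := by
      rw [h.colv_eq hκ L c t (a + 2) l2, h1, ← corner_W hp (h.cd.op_ne p)]
    have e4 : colv G κ b₀ lb L c t a = c (Rf G (G.op p)) := by
      have hE : Rf G (cur G lb (L.take t) (lb (G.op p))) = Rf G (G.op p) := by
        rw [h2]
        exact corner_E hp (h.cd.op_ne p)
      rcases Nat.eq_zero_or_pos a with h0 | h0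
      · rw [h0, colv_zero]
        have h3 : κ (Rf G (G.op p)) = κ b₀ := by
          have h4 := hκ (G.op p)
          rw [← h.lev (G.op p), l1, h0] at h4
          push_cast at h4
          omega
        have h5 : Rf G (G.op p) = b₀ := by
          by_contra hcon
          have := h.lt _ hcon
          omega
        rw [h5]
      · obtain ⟨y, hy⟩ : ∃ y : {x // x ∈ C}, κ (Lf G y.1) = κ b₀ + a := by
          have h3 := (hn (a + 1)).1 ⟨_, l1⟩
          exact (hn a).2 ⟨h0, by omega⟩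
        rw [h.colv_eq hκ L c t a hy, ← hE]
        have hJ := h.jn hκ hL _ _ hsplit (lb (G.op p)) y (by rw [l1, hy]; push_cast; ring)
        rw [hJ]
    rw [e1, e2, e3, e4, hcol p hp, add_comm (c (Lf G p))]

theorem Coh.lb_self (h : Coh G κ b₀ C tau lb) (x : {x // x ∈ C}) : lb x.1 = x := h.uniq _ _ (h.lev _)

theorem Srt.or {L : List P} (hL : Srt G tau L) (ho : ∀ p, G.op p ≠ p) (e : P) : e ∈ L ∨ G.op e ∈ L := by
  by_cases hl : G.lf e = true
  · exact Or.inl ((hL.all e).2 hl)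
  · right
    rw [hL.all, G.lf_op e (ho e)]
    simpa using hl

theorem Coh.per (h : Coh G κ b₀ C tau lb) (hκ : ∀ e, κ (Lf G e) = κ (Rf G e) + 1) {L : List P} (hL : Srt G tau L)
    (c : Face G → ℂ) {n : ℕ} (hn : ∀ j : ℕ, (∃ x : {x // x ∈ C}, κ (Lf G x.1) = κ b₀ + j) ↔ 1 ≤ j ∧ j ≤ n + 1)
    (j : ℕ) (hj : j ≤ n + 1) : colv G κ b₀ lb L c L.length j = colv G κ b₀ lb L c 0 j := by
  rcases Nat.eq_zero_or_pos j with h0 | h0
  · rw [h0, colv_zero, colv_zero]
  · obtain ⟨x, hx⟩ := (hn j).2 ⟨h0, hj⟩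
    rw [h.colv_eq hκ L c _ j hx, h.colv_eq hκ L c _ j hx, List.take_length, List.take_zero, cur_nil]
    have h1 := cur_end h.cd hL.srt (hL.or h.cd.op_ne) x.2
    rw [h.lb_self] at h1
    rw [h1]

/-- every letter occurs -/
theorem Coh.letters (hG : Plane G) (hκ : ∀ e, κ (Lf G e) = κ (Rf G e) + 1) {L : List P}
    (hL : Srt G tau L) {n : ℕ} (hn : ∀ j : ℕ, (∃ x : {x // x ∈ C}, κ (Lf G x.1) = κ b₀ + j) ↔ 1 ≤ j ∧ j ≤ n + 1)
    (a : ℕ) (ha : a < n) : a ∈ L.map (ltr G κ b₀) := by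
  by_contra hcon
  have hno : ∀ p, G.lf p = true → κ (Rf G p) ≠ κ b₀ + (a + 1 : ℕ) := by
    intro p hp h1
    apply hcon
    rw [List.mem_map]
    refine ⟨p, (hL.all p).2 hp, ?_⟩
    unfold ltr
    rw [h1]
    push_cast
    omega
  have hop : ∀ v, G.lf v = true → (κ (Lf G (G.op v)) ≤ κ b₀ + (a + 1 : ℕ) ↔ κ (Lf G v) ≤ κ b₀ + (a + 1 : ℕ)) := by
    intro v hv
    have h1 := hno v hv
    have h2 := hκ v
    rw [← corner_N hv]
    omega
  have hop' : ∀ v, (κ (Lf G (G.op v)) ≤ κ b₀ + (a + 1 : ℕ) ↔ κ (Lf G v) ≤ κ b₀ + (a + 1 : ℕ)) := by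
    intro v
    by_cases hl : G.lf v = true
    · exact hop v hl
    · have h1 : G.lf (G.op v) = true := by
        rw [G.lf_op v (hG.cross v)]
        simpa using hl
      have h2 := hop _ h1
      rw [G.op_op] at h2
      exact h2.symm
  obtain ⟨x, hx⟩ := (hn 1).2 ⟨le_rfl, by omega⟩
  obtain ⟨y, hy⟩ := (hn (a + 2)).2 ⟨by omega, by omega⟩
  have := hG.conn (fun v => κ (Lf G v) ≤ κ b₀ + (a + 1 : ℕ)) ⟨x.1, by rw [hx]; push_cast; omega⟩ (fun v => by
    rw [← hop' (G.nxt v)]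
    have := Pool.Agent.Helper57.PD.kappa_seifert hG.cross κ hκ v
    rw [this]) hop' y.1
  rw [hy] at this
  push_cast at this
  omega

/-- every edge is visited -/
theorem Coh.visit (h : Coh G κ b₀ C tau lb) {L : List P} (hL : Srt G tau L) (e : P) :
    ∃ t ≤ L.length, cur G lb (L.take t) (lb e) = e := by
  have hc : ∃ p ∈ L, p = e ∨ G.op p = e := by
    rcases hL.or h.cd.op_ne e with h1 | h1
    · exact ⟨e, h1, Or.inl rfl⟩
    · exact ⟨_, h1, Or.inr (G.op_op e)⟩
  obtain ⟨p, hp, hpe⟩ := hc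
  obtain ⟨t, ht, rfl⟩ := List.getElem_of_mem hp
  refine ⟨t + 1, by omega, ?_⟩
  rw [← List.take_append_getElem ht, cur_append]
  rcases hpe with rfl | rfl
  · exact stp_left _ _
  · exact stp_right h.cd _ _

end columns

open Pool.Agent.Helper69.S4 in
/-- **The coherent case.** -/
theorem coh_triv (hG : Plane G) (hz : zeros G = 2) (hc4 : circles G ≤ 4) {s : ℂ} (hs : Sec s) {κ : Face G → ℤ}
    (hκ : ∀ e, κ (Lf G e) = κ (Rf G e) + 1) {c : Face G → ℂ}
    (hcol : ∀ p, G.lf p = true → c (Rf G p) + s ^ 2 * c (Lf G (G.nxt.symm p)) = s * (c (Lf G p) + c (Rf G (G.op p)))) :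
    ∃ α β : ℂ, ∀ f, c f = α * s ^ κ f + β * s⁻¹ ^ κ f := by
  classical
  obtain ⟨b₀, C, tau, lb, h⟩ := exists_coh hG hz hκ
  obtain ⟨L, hL1, hL2⟩ := ex_sorted (Finset.univ.filter fun p : P => G.lf p = true) tau (by
    intro p hp q hq hpq
    rw [Finset.mem_filter] at hp hq
    rcases h.cd.tinj p q hpq with h1 | h1
    · exact h1.symm
    · rw [h1, G.lf_op p (hG.cross p), hp.2] at hq
      simp at hq)
  have hL : Srt G tau L := ⟨fun p => by rw [hL1]; simp, hL2⟩
  have hz2 : 2 ≤ circles G := by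
    rw [← hz]
    exact zeros_le hG.cross
  obtain ⟨n, hn⟩ : ∃ n, circles G = n + 1 := ⟨circles G - 1, by omega⟩
  have hlev : ∀ j : ℕ, (∃ x : {x // x ∈ C}, κ (Lf G x.1) = κ b₀ + j) ↔ 1 ≤ j ∧ j ≤ n + 1 := by
    intro j
    rw [h.levels hG hκ j, hn]
  obtain ⟨α, β, hab⟩ := colour hs (n := n) (by omega) (L.map (ltr G κ b₀)) (by
      intro a ha
      obtain ⟨p, hp, rfl⟩ := List.mem_map.1 ha
      have h1 := h.ltr_eq hκ ((hL.all p).1 hp)
      have h2 := (hlev _).1 ⟨_, h1.2⟩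
      omega) (Coh.letters hG hκ hL hlev) (colv G κ b₀ lb L c) (h.steps hκ hL hcol n hlev) (by
      intro j hj
      rw [List.length_map]
      exact h.per hκ hL c hlev j hj)
  have hs0 := hs.ne
  have hface : ∀ f, ∃ t ≤ L.length, ∃ j : ℕ, j ≤ n + 1 ∧ κ f = κ b₀ + j ∧ c f = colv G κ b₀ lb L c t j := by
    intro f
    by_cases hf : f = b₀
    · exact ⟨0, Nat.zero_le _, 0, by omega, by rw [hf]; simp, by rw [hf, colv_zero]⟩
    · obtain ⟨e, rfl⟩ := h.ex f hf
      obtain ⟨t, ht, hcur⟩ := h.visit hL e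
      obtain ⟨j, hj⟩ := Int.eq_ofNat_of_zero_le (by have := h.lt _ hf; omega : 0 ≤ κ (Lf G e) - κ b₀)
      have h1 : κ (Lf G (lb e).1) = κ b₀ + j := by rw [h.lev]; omega
      refine ⟨t, ht, j, ((hlev j).1 ⟨_, h1⟩).2, by rw [← h1, h.lev], ?_⟩
      rw [h.colv_eq hκ L c t j h1, hcur]
  refine ⟨α * s ^ (-κ b₀), β * s⁻¹ ^ (-κ b₀), fun f => ?_⟩
  obtain ⟨t, ht, j, hj, hk, hcf⟩ := hface f
  have h1 := hab t (by rwa [List.length_map]) j hj
  have hsi : s⁻¹ ≠ 0 := inv_ne_zero hs0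
  rw [hcf, h1, hk, mul_assoc, mul_assoc, ← zpow_add₀ hs0, ← zpow_add₀ hsi]
  have e1 : -κ b₀ + (κ b₀ + (j : ℤ)) = (j : ℤ) := by ring
  rw [e1, zpow_natCast, zpow_natCast]

end Pool.Agent.Helper29.PD
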