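import Pool.Agent.Helper29.PD.Coh
import Pool.Agent.Helper69.S4.Fin4

/-!
# S4, the coherent case in the form `Triv`
-/

set_option autoImplicit false

namespace Pool.Agent.Helper29.PD

open Pool.Agent.Helper85.Exp Pool.Agent.Helper2.PD Pool.Agent.Helper43.Pln Pool.Agent.Helper69.S4

/-- The coherent case. -/
theorem coh_Triv {P : Type} [Fintype P] {G : Sh P} (hG : Plane G) (hz : zeros G = 2) (hc4 : circles G ≤ 4)
    {s : ℂ} (hs : Sec s) : Triv G s := by
  intro κ hκ c hc
  obtain ⟨α, β, h⟩ := coh_triv hG hz hc4 hs hκ hc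
  exact ⟨α, β, fun f => by rw [h f, inv_zpow, ← zpow_neg]⟩

end Pool.Agent.Helper29.PD
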