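import Pool.Agent.Helper29.PD.Sch
import Pool.Agent.Helper60.EV2.Exist

/-!
# EV3, block (7c): the tail bound for shadows cut into boxes
-/

set_option autoImplicit false

namespace Pool.Agent.Helper29.PD

open Matrix Polynomial Pool.Agent.Helper85.Exp Pool.Agent.Helper60.EV2 Pool.Agent.Helper29.Lab

/-! ### Swaps of disjoint neighbours -/

section swaps

variable {ι R : Type} [Fintype ι] [DecidableEq ι] [CommRing R]

/-- disjoint pairs -/
def Dis {α : Type*} (p q : α × α) : Prop := p.1 ≠ q.1 ∧ p.1 ≠ q.2 ∧ p.2 ≠ q.1 ∧ p.2 ≠ q.2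

theorem Qw_swap (t : R) (x y : List (ι × ι)) {p q : ι × ι} (h : Dis p q) :
    Qw t (x ++ p :: q :: y) = Qw t (x ++ q :: p :: y) := by
  rw [Qw_append, Qw_append, Qw, Qw, Qw, Qw, Matrix.mul_assoc (Qw t y), Matrix.mul_assoc (Qw t y),
    ← U_comm t h.1 h.2.1 h.2.2.1 h.2.2.2]
  simp only [Matrix.mul_assoc]

/-- equivalence of words of pairs up to swaps of disjoint neighbours -/
inductive Sw {α : Type*} : List (α × α) → List (α × α) → Prop
  | refl (w : List (α × α)) : Sw w w
  | step {w : List (α × α)} (x y : List (α × α)) {p q : α × α} (h : Dis p q)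
      (h' : Sw (x ++ q :: p :: y) w) : Sw (x ++ p :: q :: y) w

theorem Sw.Qw {w w' : List (ι × ι)} (h : Sw w w') (t : R) : Lab.Qw t w = Lab.Qw t w' := by
  induction h with
  | refl w => rfl
  | step x y h _ ih => rw [Qw_swap t x y h, ih]

omit [Fintype ι] [DecidableEq ι] in
theorem Sw.map {α β : Type*} (f : α × α → β × β) (hf : ∀ p q, Dis p q → Dis (f p) (f q))
    {w w' : List (α × α)} (h : Sw w w') : Sw (w.map f) (w'.map f) := by
  induction h with
  | refl w => exact Sw.refl _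
  | step x y h _ ih =>
    rw [List.map_append, List.map_cons, List.map_cons] at ih ⊢
    exact Sw.step _ _ (hf _ _ h) ih

theorem Sw.trans {α : Type*} {u v w : List (α × α)} (h : Sw u v) (h' : Sw v w) : Sw u w := by
  induction h with
  | refl w => exact h'
  | step x y h _ ih => exact Sw.step _ _ h (ih h')

theorem Dis.symm {α : Type*} {p q : α × α} (h : Dis p q) : Dis q p :=
  ⟨h.1.symm, h.2.2.1.symm, h.2.1.symm, h.2.2.2.symm⟩

theorem Dis.swap {α : Type*} {p q : α × α} (h : Dis p q) : Dis p.swap q.swap :=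
  ⟨h.2.2.2, h.2.2.1, h.2.1, h.1⟩

theorem Sw.symm {α : Type*} {u v : List (α × α)} (h : Sw u v) : Sw v u := by
  induction h with
  | refl w => exact Sw.refl _
  | step x y h _ ih => exact ih.trans (Sw.step _ _ h.symm (Sw.refl _))

theorem Sw.length {α : Type*} {w w' : List (α × α)} (h : Sw w w') : w.length = w'.length := by
  induction h with
  | refl w => rfl
  | step x y h _ ih => rw [← ih]; simp

end swaps

/-! ### Boxes from lists of labels, listed from the travel-left -/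

section boxes

variable {ι : Type}

/-- the box of a duplicate-free list, reversed -/
def boxOf (x0 : ι) (ls : List ι) (h : ls.Nodup) : Box ι where
  e n := ls.reverse.getD n x0
  k := ls.length - 1
  inj a b ha hb hab := by
    rcases Nat.eq_zero_or_pos ls.length with h0 | h0
    · omega
    · have h1 : a < ls.reverse.length := by rw [List.length_reverse]; omega
      have h2 : b < ls.reverse.length := by rw [List.length_reverse]; omega
      rw [List.getD_eq_getElem _ _ h1, List.getD_eq_getElem _ _ h2] at hab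
      exact (List.nodup_reverse.2 h).getElem_inj_iff.1 hab

/-- the pairs of a box -/
def bw (x0 : ι) (b : List ι × List ℕ) : List (ι × ι) :=
  b.2.map fun a => (b.1.getD a x0, b.1.getD (a + 1) x0)

theorem word_boxOf (x0 : ι) (ls : List ι) (h : ls.Nodup) (w : List ℕ) (hw : ∀ a ∈ w, a + 1 < ls.length) :
    (boxOf x0 ls h).word (w.map fun a => ls.length - 2 - a) = (bw x0 (ls, w)).map Prod.swap := by
  unfold Box.word bw
  rw [List.map_map, List.map_map]
  refine List.map_congr_left fun a ha => ?_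
  have h1 := hw a ha
  simp only [Function.comp_apply, boxOf, Prod.swap_prod_mk]
  rw [List.getD_eq_getElem _ _ (by rw [List.length_reverse]; omega),
    List.getD_eq_getElem _ _ (by rw [List.length_reverse]; omega),
    List.getD_eq_getElem _ _ (by omega), List.getD_eq_getElem _ _ (by omega),
    List.getElem_reverse, List.getElem_reverse]
  congr 2 <;> omega

theorem boxes_full (x0 : ι) : ∀ Bs : List (List ι × List ℕ), (∀ b ∈ Bs, b.1.Nodup) →
    (∀ b ∈ Bs, ∀ a ∈ b.2, a + 1 < b.1.length) →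
    ∃ (bs : List (Box ι)) (ws : List (List ℕ)), bs.length = Bs.length ∧
      List.Forall₂ (fun b w => ∀ a ∈ w, a < b.k) bs ws ∧
      full bs ws = (Bs.flatMap (bw x0)).map Prod.swap
  | [], _, _ => ⟨[], [], rfl, List.Forall₂.nil, rfl⟩
  | b :: Bs, h1, h2 => by
    obtain ⟨bs, ws, e1, e2, e3⟩ := boxes_full x0 Bs (fun b hb => h1 b (by simp [hb]))
      (fun b hb => h2 b (by simp [hb]))
    have g1 := h1 b (by simp)
    have g2 := h2 b (by simp)
    refine ⟨boxOf x0 b.1 g1 :: bs, (b.2.map fun a => b.1.length - 2 - a) :: ws, by simp [e1],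
      List.Forall₂.cons ?_ e2, ?_⟩
    · intro a ha
      obtain ⟨a', ha', rfl⟩ := List.mem_map.1 ha
      have := g2 a' ha'
      show b.1.length - 2 - a' < b.1.length - 1
      omega
    · rw [full, word_boxOf x0 b.1 g1 b.2 g2, e3, List.flatMap_cons, List.map_append]

end boxes

/-! ### The bound -/

theorem ex_s (z : ℂ) : ∃ s : ℂ, s ≠ 0 ∧ s⁻¹ - s = z := by
  obtain ⟨d, hd⟩ := IsAlgClosed.exists_pow_nat_eq (z ^ 2 + 4) (n := 2) (by norm_num)
  have h1 : ((-z + d) / 2) ^ 2 + z * ((-z + d) / 2) - 1 = 0 := by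
    linear_combination (1 / 4) * hd
  have h2 : (-z + d) / 2 ≠ 0 := by
    intro h
    rw [h] at h1
    norm_num at h1
  refine ⟨(-z + d) / 2, h2, ?_⟩
  rw [inv_eq_one_div, sub_eq_iff_eq_add, div_eq_iff h2]
  linear_combination -h1

theorem norm_zpow_le {s : ℂ} (hs : s ≠ 0) {R : ℝ} (h : ‖s⁻¹ - s‖ ≤ R) {n : ℤ} {A : ℕ}
    (hn : |n| ≤ A) : ‖s ^ n‖ ≤ (R + 1) ^ A := by
  obtain ⟨h1, h2⟩ := norm_s_le hs h
  have hR : 0 ≤ R := (norm_nonneg _).trans h
  have h3 := abs_le.1 hn
  rcases le_total 0 n with h0 | h0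
  · obtain ⟨m, rfl⟩ := Int.eq_ofNat_of_zero_le h0
    rw [zpow_natCast, norm_pow]
    exact (pow_le_pow_left₀ (norm_nonneg _) h1 _).trans (pow_le_pow_right₀ (by linarith) (by omega))
  · obtain ⟨m, hm⟩ := Int.eq_ofNat_of_zero_le (by omega : 0 ≤ -n)
    have e : s ^ n = (s⁻¹) ^ m := by
      rw [show n = -(m : ℤ) by omega, _root_.zpow_neg, zpow_natCast, inv_pow]
    rw [e, norm_pow]
    exact (pow_le_pow_left₀ (norm_nonneg _) h2 _).trans (pow_le_pow_right₀ (by linarith) (by omega))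

theorem wr_pos {P : Type} [Fintype P] {G : Sh P} {C : Finset P} {tau : P → ℕ} {lb : P → {x // x ∈ C}}
    (h : Cutd G C tau lb) {L : List P} (hL : ∀ p, p ∈ L ↔ G.lf p = true)
    (hs : L.Pairwise fun a b => tau a < tau b) (D : Dg G) (hD : ∀ i, D.st i = .pos) :
    wr D = L.length := by
  classical
  have hnd : L.Nodup := hs.imp fun hab e => by rw [e] at hab; exact lt_irrefl _ hab
  unfold wr
  have e1 : ∀ i : P, (if G.op i ≠ i ∧ G.lf i = true then sgn (D.st i) else 0) =
      if i ∈ L.toFinset then 1 else 0 := by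
    intro i
    simp only [List.mem_toFinset, hL, hD i]
    simp [h.op_ne i, sgn]
  rw [Finset.sum_congr rfl fun i _ => e1 i, Finset.sum_ite_mem, Finset.univ_inter, Finset.sum_const,
    List.toFinset_card_of_nodup hnd]
  simp

/-- **Tail bound for shadows, matrix form.** -/
theorem h3_core (N K A : ℕ) {r₀ R : ℝ} (hr₀ : 0 < r₀) :
    ∃ c : ℝ, 0 < c ∧ ∃ C₀ : ℝ, ∀ (P : Type) [Fintype P] [DecidableEq P] (G : Sh P) (C : Finset P)
      (tau : P → ℕ) (lb : P → {x // x ∈ C}), Cutd G C tau lb → C.card ≤ N →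
      ∀ L : List P, (∀ p, p ∈ L ↔ G.lf p = true) → (L.Pairwise fun a b => tau a < tau b) →
      ∀ (bs : List (Box {x // x ∈ C})) (ws : List (List ℕ)), bs.length ≤ K →
      List.Forall₂ (fun b w => ∀ a ∈ w, a < b.k) bs ws →
      Sw (L.map (pr G lb)) (full bs ws) →
      ∀ (x0 : {x // x ∈ C}) (n : ℤ), |n| ≤ A →
      (∀ D : Dg G, (∀ i, ∃ k : ℕ, D.tr^[k] (G.nxt x0) = i) → Des D (G.nxt x0) → wr D = n) →
      ∀ nab : Dg G → ℤ[X], Cw X 1 (G.nxt x0) nab →
      ∀ D : Dg G, (∀ i, D.st i = .pos) →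
      ∀ z : ℂ, r₀ ≤ ‖z‖ → ‖z‖ ≤ R → ∀ a : ℝ, 0 < a → a ^ 2 = ‖z‖ * a + 1 →
      ‖aeval z (nab D)‖ ≤ C₀ * a ^ L.length *
        Real.exp (-(c * L.length * (1 - Real.cos (2 * z.arg)))) := by
  obtain ⟨c, hc, C₁, H⟩ := lab_tail N K (R := R) hr₀
  refine ⟨c, hc, (R + 1) ^ A * max C₁ 0, ?_⟩
  intro P _ _ G C tau lb h hcard L hL hs bs ws hbs hws hsw x0 n hn hw nab hnab D hD z hz1 hz2 a ha h2
  obtain ⟨s, hs0, rfl⟩ := Helper29.PD.ex_s z
  have hR : 0 ≤ R := (norm_nonneg _).trans hz2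
  have h3 := conway_formula (Units.mk0 s hs0) (G.nxt x0) n hw hnab D
  have hwr := wr_pos h hL hs D hD
  have h4 := sch h hL hs s s⁻¹ D hD x0
  have h5 : (L.map (pr G lb)).length = (full bs ws).length := hsw.length
  rw [List.length_map] at h5
  have h6 := H {x // x ∈ C} (by rwa [Fintype.card_coe]) (1 + single x0 x0 1) (Em lb ℂ) ?_ ?_ bs hbs ws hws s hs0
    hz1 hz2 a ha h2
  · rw [← hsw.Qw, ← h4, ← h5] at h6
    have e1 : aeval (s⁻¹ - s) (nab D) = s ^ n * ((s⁻¹) ^ L.length * W G.nxt G.op (kd s s⁻¹ D) (G.nxt x0)) := by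
      have e2 : (((Units.mk0 s hs0)⁻¹ : ℂˣ) : ℂ) = s⁻¹ := by simp
      rw [e2, Units.val_mk0] at h3
      rw [h3, hwr, Units.val_zpow_eq_zpow_val, Units.val_mk0, zpow_sub₀ hs0, zpow_natCast, div_eq_mul_inv,
        inv_pow, mul_assoc]
    rw [e1, norm_mul]
    have e3 : ‖s ^ n‖ ≤ (R + 1) ^ A := norm_zpow_le hs0 hz2 hn
    have e4 : 0 ≤ a ^ L.length * Real.exp (-(c * L.length * (1 - Real.cos (2 * (s⁻¹ - s).arg)))) := by
      positivity
    have e5 : ‖(s⁻¹) ^ L.length * W G.nxt G.op (kd s s⁻¹ D) (G.nxt x0)‖ ≤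
        max C₁ 0 * (a ^ L.length * Real.exp (-(c * L.length * (1 - Real.cos (2 * (s⁻¹ - s).arg))))) := by
      refine h6.trans ?_
      rw [mul_assoc]
      exact mul_le_mul_of_nonneg_right (le_max_left _ _) e4
    refine (mul_le_mul e3 e5 (norm_nonneg _) (by positivity)).trans (le_of_eq ?_)
    ring
  · intro i j
    rw [Matrix.add_apply, one_apply, single_apply]
    refine (norm_add_le _ _).trans ?_
    have e1 : ‖(if i = j then (1 : ℂ) else 0)‖ ≤ 1 := by split_ifs <;> simp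
    have e2 : ‖(if x0 = i ∧ x0 = j then (1 : ℂ) else 0)‖ ≤ 1 := by split_ifs <;> simp
    linarith
  · intro i j
    unfold Em
    rw [Matrix.of_apply]
    split_ifs <;> simp

/-- **Tail bound for shadows, boxes as duplicate-free lists of labels** (the pair of the crossing of `p`, `lf p = true`, is
`(lb p, lb (op p))`; the boxes list the labels in this order). -/
theorem h3_boxes (N K A : ℕ) {r₀ R : ℝ} (hr₀ : 0 < r₀) :
    ∃ c : ℝ, 0 < c ∧ ∃ C₀ : ℝ, ∀ (P : Type) [Fintype P] [DecidableEq P] (G : Sh P) (C : Finset P)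
      (tau : P → ℕ) (lb : P → {x // x ∈ C}), Cutd G C tau lb → C.card ≤ N →
      ∀ L : List P, (∀ p, p ∈ L ↔ G.lf p = true) → (L.Pairwise fun a b => tau a < tau b) →
      ∀ (x0 : {x // x ∈ C}) (Bs : List (List {x // x ∈ C} × List ℕ)), Bs.length ≤ K →
      (∀ b ∈ Bs, b.1.Nodup) → (∀ b ∈ Bs, ∀ a ∈ b.2, a + 1 < b.1.length) →
      Sw (L.map fun p => (lb p, lb (G.op p))) (Bs.flatMap (bw x0)) →
      ∀ n : ℤ, |n| ≤ A →
      (∀ D : Dg G, (∀ i, ∃ k : ℕ, D.tr^[k] (G.nxt x0) = i) → Des D (G.nxt x0) → wr D = n) →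
      ∀ nab : Dg G → ℤ[X], Cw X 1 (G.nxt x0) nab →
      ∀ D : Dg G, (∀ i, D.st i = .pos) →
      ∀ z : ℂ, r₀ ≤ ‖z‖ → ‖z‖ ≤ R → ∀ a : ℝ, 0 < a → a ^ 2 = ‖z‖ * a + 1 →
      ‖aeval z (nab D)‖ ≤ C₀ * a ^ L.length *
        Real.exp (-(c * L.length * (1 - Real.cos (2 * z.arg)))) := by
  obtain ⟨c, hc, C₁, H⟩ := h3_core N K A (R := R) hr₀
  refine ⟨c, hc, C₁, ?_⟩
  intro P _ _ G C tau lb h hcard L hL hs x0 Bs hBs hnd hlet hsw n hn hw nab hnab D hD z hz1 hz2 a ha h2
  obtain ⟨bs, ws, e1, e2, e3⟩ := boxes_full x0 Bs hnd hlet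
  refine H P G C tau lb h hcard L hL hs bs ws (by omega) e2 ?_ x0 n hn hw nab hnab D hD z hz1 hz2 a ha h2
  have h4 := hsw.map Prod.swap (fun p q hpq => hpq.swap)
  rw [List.map_map] at h4
  rw [e3]
  exact h4

/-! ### Changing the order -/

section order

variable {P : Type} [DecidableEq P] {G : Sh P} {C : Finset P} {tau : P → ℕ} {lb : P → {x // x ∈ C}}

/-- the position of the crossing of `p` in the list `X` of the `lf = true` passages -/
def pos (G : Sh P) (X : List P) (p : P) : ℕ := X.idxOf (if G.lf p = true then p else G.op p)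

theorem Cutd.reorder (h : Cutd G C tau lb) {X : List P} (hX : ∀ p, p ∈ X ↔ G.lf p = true)
    (hpos : ∀ e, e ∉ C → pos G X e < pos G X (G.nxt e)) : Cutd G C (pos G X) lb where
  op_ne := h.op_ne
  top p := by
    unfold pos
    have h1 := G.lf_op p (h.op_ne p)
    by_cases hp : G.lf p = true
    · rw [hp] at h1
      simp [h1, hp, G.op_op]
    · have hp' : G.lf p = false := by simpa using hp
      rw [hp'] at h1
      simp [h1, hp']
  tnx := hpos
  tinj p q hpq := by
    have hm : ∀ p : P, (if G.lf p = true then p else G.op p) ∈ X := by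
      intro p
      rw [hX]
      split_ifs with hp
      · exact hp
      · rw [G.lf_op p (h.op_ne p)]
        simpa using hp
    have e := (List.idxOf_inj (hm p)).1 hpq
    by_cases hp : G.lf p = true <;> by_cases hq : G.lf q = true
    · rw [if_pos hp, if_pos hq] at e
      exact Or.inl e.symm
    · rw [if_pos hp, if_neg hq] at e
      right
      rw [e, G.op_op]
    · rw [if_neg hp, if_pos hq] at e
      exact Or.inr e.symm
    · rw [if_neg hp, if_neg hq] at e
      left
      rw [← G.op_op q, ← e, G.op_op]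
  lbC := h.lbC
  lbN := h.lbN

theorem pairwise_pos {X : List P} (hX : ∀ p, p ∈ X ↔ G.lf p = true) (hnd : X.Nodup) :
    X.Pairwise fun a b => pos G X a < pos G X b := by
  rw [List.pairwise_iff_getElem]
  intro i j hi hj hij
  unfold pos
  rw [if_pos ((hX _).1 (List.getElem_mem hi)), if_pos ((hX _).1 (List.getElem_mem hj)),
    hnd.idxOf_getElem, hnd.idxOf_getElem]
  exact hij

end order

end Pool.Agent.Helper29.PD
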