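import Pool.Agent.Helper41.PD.AdaptH3
import Pool.Agent.Helper57.PD.Last

/-!
# EV3, (h3): the tail bound for all plane shadows with at most `s` Seifert circles
-/

set_option autoImplicit false

namespace Pool.Agent.Helper29.PD

open Polynomial Pool.Agent.Helper85.Exp Pool.Agent.Helper60.EV2 Pool.Agent.Helper27.EV2 Pool.Agent.Helper2.PD
  Pool.Agent.Helper16.PD Pool.Agent.Helper41.PD Pool.Agent.Helper57.PD

/-- **(h3).** -/
theorem h3 (s : ℕ) : ∀ r₀ R : ℝ, 0 < r₀ → 0 < R → ∃ c : ℝ, 0 < c ∧ ∃ C : ℝ, ∀ (P : Type) [Fintype P] (G : Sh P),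
    Good s G → Nonempty P → ∀ nab : Dg G → ℤ[X], Cs nab → ∀ z : ℂ, r₀ ≤ ‖z‖ → ‖z‖ ≤ R → ∀ a : ℝ, 0 < a →
      a ^ 2 = ‖z‖ * a + 1 →
        ‖aeval z (nab (allPos G))‖ ≤ C * a ^ (Nat.card (Cr G)) *
          Real.exp (-(c * (Nat.card (Cr G)) * (1 - Real.cos (2 * z.arg)))) := by
  classical
  intro r₀ R hr₀ _
  obtain ⟨c, hc, C₀, H0⟩ := h3_cut (s * s * s) (2 * (8 * s + 4 * (s * s * s) + 1) * (s * s * s))
    (6 * s * s + s) (R := R) hr₀
  refine ⟨c, hc, C₀, ?_⟩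
  intro P _ G hG hne nab hnab z hz1 hz2 a ha h2
  obtain ⟨C, τ, H, Bs, hC, -, hBs, -, hSB⟩ := shadow_boxes hG.ho hG.hc hG.hp (sg G) (sg_apply G) hG.hs
  obtain ⟨p⟩ := hne
  obtain ⟨α, nab', -, -, hα, hwr, -, -⟩ := one_shadow hG (G.nxt (H.lab p))
  have hB := hSB.bxs
  have h5 := H0 P G C τ H hG.ho hC Bs hB hBs (H.lab p) (H.lab_mem p) (-α) (by rwa [abs_neg])
    hwr nab (hnab.cw _) (allPos G) (fun _ => rfl) z hz1 hz2 a ha h2
  have hnd : (crs Bs).Nodup := hB.ord.imp fun h => h.ne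
  have h6 : Nat.card (Cr G) = (crs Bs).length := by
    rw [← List.toFinset_card_of_nodup hnd, ← Nat.card_eq_finsetCard]
    refine Nat.card_congr (Equiv.subtypeEquivRight fun q => ?_)
    rw [List.mem_toFinset]
    exact (hB.all q).symm
  rw [h6]
  exact h5

end Pool.Agent.Helper29.PD
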