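import Pool.Agent.Helper76.S4.Loc21

/-!
# MIX: rigid circles of the third kind (two adjacent two-sided circles between two one-sided circles)
-/

set_option autoImplicit false

namespace Pool.Agent.Helper29.LocP

open Pool.Agent.Helper85.Exp Pool.Agent.Helper2.PD Pool.Agent.Helper43.Pln Pool.Agent.Helper57.S4 Pool.Agent.Helper60.S4
open Pool.Agent.Helper69.S4 (Sec Steps colour)

variable {P : Type} {G : Sh P}

/-- one letter: `0` on the left of the first circle, `1` between the circles, `2` on the right of the second circle -/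
def st (G : Sh P) (x : P × P) (a : ℕ) : P × P := (if a ≤ 1 then sq G x.1 else x.1, if a = 0 then x.2 else sq G x.2)

/-- the pair of edges after `t` letters -/
def tr (G : Sh P) (x : P × P) (w : List ℕ) (t : ℕ) : P × P := (w.take t).foldl (st G) x

/-- the pair of edges after all letters -/
def fin (G : Sh P) (x : P × P) (w : List ℕ) : P × P := w.foldl (st G) x

theorem tr_zero (x : P × P) (w : List ℕ) : tr G x w 0 = x := by simp [tr]

theorem tr_cons (x : P × P) (a : ℕ) (w : List ℕ) (t : ℕ) : tr G x (a :: w) (t + 1) = tr G (st G x a) w t := rfl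

theorem tr_length (x : P × P) (w : List ℕ) : tr G x w w.length = fin G x w := by simp [tr, fin]

theorem tr_succ : ∀ (w : List ℕ) (x : P × P) (t : ℕ) (h : t < w.length), tr G x w (t + 1) = st G (tr G x w t) w[t]
  | a :: w, x, 0, _ => by rw [tr_cons, tr_zero, tr_zero]; rfl
  | a :: w, x, t + 1, h => by
    rw [tr_cons, tr_cons, tr_succ w (st G x a) t (by simpa using h)]
    rfl

theorem fin_append (x : P × P) (w w' : List ℕ) : fin G x (w ++ w') = fin G (fin G x w) w' := by simp [fin]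

/-- the letter fits -/
def Ok (G : Sh P) (x : P × P) (a : ℕ) : Prop :=
  (a = 0 ∧ G.lf (G.nxt x.1) = true) ∨ (a = 1 ∧ G.lf (G.nxt x.1) = false ∧ G.nxt x.1 = sq G x.2) ∨ (a = 2 ∧ G.lf (G.nxt x.2) = false)

/-- all letters fit -/
def Val (G : Sh P) : P × P → List ℕ → Prop
  | _, [] => True
  | x, a :: w => Ok G x a ∧ Val G (st G x a) w

theorem Val.ok' : ∀ (w : List ℕ) (x : P × P), Val G x w → ∀ t (h : t < w.length), Ok G (tr G x w t) w[t]
  | a :: w, _, hv, 0, _ => by rw [tr_zero]; exact hv.1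
  | a :: w, _, hv, t + 1, h => Val.ok' w _ hv.2 t (by simpa using h)

theorem Val.app : ∀ (w : List ℕ) (x : P × P) {w' : List ℕ}, Val G x w → Val G (fin G x w) w' → Val G x (w ++ w')
  | [], _, _, _, h => h
  | _ :: w, _, _, hv, h => ⟨hv.1, Val.app w _ hv.2 h⟩

/-- steps on the first circle -/
def nb (w : List ℕ) : ℕ := (w.filter (fun a => a ≤ 1)).length

/-- steps on the second circle -/
def nr (w : List ℕ) : ℕ := (w.filter (fun a => a ≠ 0)).length

theorem fin_fst : ∀ (w : List ℕ) (x : P × P), (fin G x w).1 = (sq G)^[nb w] x.1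
  | [], _ => rfl
  | a :: w, x => by
    have h := fin_fst w (st G x a)
    show (fin G (st G x a) w).1 = _
    rw [h]
    by_cases ha : a ≤ 1
    · have h1 : nb (a :: w) = nb w + 1 := by simp [nb, ha]
      rw [h1, Function.iterate_succ_apply]
      simp [st, ha]
    · have h1 : nb (a :: w) = nb w := by simp [nb, ha]
      rw [h1]
      simp [st, ha]

theorem fin_snd : ∀ (w : List ℕ) (x : P × P), (fin G x w).2 = (sq G)^[nr w] x.2
  | [], _ => rfl
  | a :: w, x => by
    have h := fin_snd w (st G x a)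
    show (fin G (st G x a) w).2 = _
    rw [h]
    by_cases ha : a = 0
    · have h1 : nr (a :: w) = nr w := by simp [nr, ha]
      rw [h1]
      simp [st, ha]
    · have h1 : nr (a :: w) = nr w + 1 := by simp [nr, ha]
      rw [h1, Function.iterate_succ_apply]
      simp [st, ha]

theorem cover_fst : ∀ (w : List ℕ) (x : P × P) (i : ℕ), i < nb w → ∃ t, ∃ h : t < w.length, (tr G x w t).1 = (sq G)^[i] x.1 ∧ w[t] ≤ 1
  | [], _, _, h => by simp [nb] at h
  | a :: w, x, i, h => by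
    by_cases ha : a ≤ 1
    · rcases i with _ | i
      · exact ⟨0, by simp, by rw [tr_zero]; rfl, ha⟩
      · have h1 : nb (a :: w) = nb w + 1 := by simp [nb, ha]
        obtain ⟨t, ht, h2, h3⟩ := cover_fst w (st G x a) i (by omega)
        refine ⟨t + 1, by simpa using ht, ?_, h3⟩
        rw [tr_cons, h2, Function.iterate_succ_apply]
        simp [st, ha]
    · have h1 : nb (a :: w) = nb w := by simp [nb, ha]
      obtain ⟨t, ht, h2, h3⟩ := cover_fst w (st G x a) i (by omega)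
      refine ⟨t + 1, by simpa using ht, ?_, h3⟩
      rw [tr_cons, h2]
      simp [st, ha]

theorem cover_snd : ∀ (w : List ℕ) (x : P × P) (i : ℕ), i < nr w → ∃ t, ∃ h : t < w.length, (tr G x w t).2 = (sq G)^[i] x.2 ∧ w[t] ≠ 0
  | [], _, _, h => by simp [nr] at h
  | a :: w, x, i, h => by
    by_cases ha : a = 0
    · have h1 : nr (a :: w) = nr w := by simp [nr, ha]
      obtain ⟨t, ht, h2, h3⟩ := cover_snd w (st G x a) i (by omega)
      refine ⟨t + 1, by simpa using ht, ?_, h3⟩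
      rw [tr_cons, h2]
      simp [st, ha]
    · rcases i with _ | i
      · exact ⟨0, by simp, by rw [tr_zero]; rfl, ha⟩
      · have h1 : nr (a :: w) = nr w + 1 := by simp [nr, ha]
        obtain ⟨t, ht, h2, h3⟩ := cover_snd w (st G x a) i (by omega)
        refine ⟨t + 1, by simpa using ht, ?_, h3⟩
        rw [tr_cons, h2, Function.iterate_succ_apply]
        simp [st, ha]

theorem val_rep0 : ∀ (a : ℕ) (x : P × P), (∀ i < a, G.lf (G.nxt ((sq G)^[i] x.1)) = true) →
    Val G x (List.replicate a 0) ∧ fin G x (List.replicate a 0) = ((sq G)^[a] x.1, x.2)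
  | 0, _, _ => ⟨trivial, rfl⟩
  | a + 1, x, h => by
    obtain ⟨h1, h2⟩ := val_rep0 a (sq G x.1, x.2) (fun i hi => by
      have := h (i + 1) (by omega)
      rwa [Function.iterate_succ_apply] at this)
    rw [List.replicate_succ]
    have h3 : st G x 0 = (sq G x.1, x.2) := by simp [st]
    refine ⟨⟨Or.inl ⟨rfl, h 0 (by omega)⟩, by rw [h3]; exact h1⟩, ?_⟩
    show fin G (st G x 0) _ = _
    rw [h3, h2, Function.iterate_succ_apply]

theorem val_rep2 : ∀ (a : ℕ) (x : P × P), (∀ i < a, G.lf (G.nxt ((sq G)^[i] x.2)) = false) →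
    Val G x (List.replicate a 2) ∧ fin G x (List.replicate a 2) = (x.1, (sq G)^[a] x.2)
  | 0, _, _ => ⟨trivial, rfl⟩
  | a + 1, x, h => by
    obtain ⟨h1, h2⟩ := val_rep2 a (x.1, sq G x.2) (fun i hi => by
      have := h (i + 1) (by omega)
      rwa [Function.iterate_succ_apply] at this)
    rw [List.replicate_succ]
    have h3 : st G x 2 = (x.1, sq G x.2) := by simp [st]
    refine ⟨⟨Or.inr (Or.inr ⟨rfl, h 0 (by omega)⟩), by rw [h3]; exact h1⟩, ?_⟩
    show fin G (st G x 2) _ = _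
    rw [h3, h2, Function.iterate_succ_apply]

/-- a word from the crossing of `p` to the crossing of `p'` -/
def Sg (G : Sh P) (p p' : P) : Prop := ∃ w, Val G (p, G.op p) w ∧ fin G (p, G.op p) w = (p', G.op p') ∧ 1 ∈ w

theorem Sg.trans {p q r : P} (h : Sg G p q) (h' : Sg G q r) : Sg G p r := by
  obtain ⟨w, h1, h2, h3⟩ := h
  obtain ⟨w', h4, h5, h6⟩ := h'
  exact ⟨w ++ w', Val.app _ _ h1 (by rw [h2]; exact h4), by rw [fin_append, h2, h5], List.mem_append_left _ h3⟩

/-- The next crossing of the two circles. -/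
theorem exists_next [Fintype P] (hG : Plane G) {b r : P} (h1 : Only G true b r) (h2 : Only G false r b) {p : P}
    (hp : G.lf p = true ∧ S G b p) : ∃ p', (G.lf p' = true ∧ S G b p') ∧ Sg G p p' := by
  have ho := hG.cross
  have hr : S G r (G.op p) := h1 p hp.2 hp.1
  obtain ⟨m, n, a1, a2, b1, b2, hmn⟩ := Pool.Agent.Helper76.S4.Ann.ann hG hp.1 (fun e he hl => by
      have h3 : S G r (G.nxt e) := only_letter ho h1 (hp.2.trans he) hl
      exact hr.symm.trans h3) (fun e he hl => by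
      have h3 : S G b (G.nxt e) := only_letter ho h2 (hr.trans he) hl
      exact hp.2.symm.trans h3)
  obtain ⟨v0, f0⟩ := val_rep0 (G := G) m (p, G.op p) a1
  obtain ⟨v2, f2⟩ := val_rep2 (G := G) n ((sq G)^[m] p, G.op p) b1
  refine ⟨sq G ((sq G)^[m] p), ⟨?_, S_sq (hp.2.trans (S_iter p m))⟩,
    List.replicate m 0 ++ (List.replicate n 2 ++ [1]), ?_, ?_, by simp⟩
  · rw [lf_sq ho, a2]
    rfl
  · refine Val.app _ _ v0 ?_
    rw [f0]
    refine Val.app _ _ v2 ?_
    rw [f2]
    exact ⟨Or.inr (Or.inl ⟨rfl, a2, hmn⟩), trivial⟩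
  · rw [fin_append, f0, fin_append, f2]
    show (sq G ((sq G)^[m] p), sq G ((sq G)^[n] (G.op p))) = _
    rw [← hmn, op_sq]

/-- A closed word. -/
theorem exists_closed [Fintype P] (hG : Plane G) {b r : P} (hb : TwoSided G b) (h1 : Only G true b r) (h2 : Only G false r b) :
    ∃ p, (G.lf p = true ∧ S G b p) ∧ Sg G p p := by
  classical
  obtain ⟨p₀, hp₀, hl₀⟩ := hb true
  have hn : ∀ p : {p : P // G.lf p = true ∧ S G b p}, ∃ p' : {p : P // G.lf p = true ∧ S G b p}, Sg G p.1 p'.1 := by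
    intro p
    obtain ⟨p', h3, h4⟩ := exists_next hG h1 h2 p.2
    exact ⟨⟨p', h3⟩, h4⟩
  choose Φ hΦ using hn
  obtain ⟨m, n, hmn, he⟩ := Finite.exists_ne_map_eq_of_infinite (fun k : ℕ => Φ^[k] ⟨p₀, hl₀, hp₀⟩)
  have key : ∀ (k : ℕ) (x : {p : P // G.lf p = true ∧ S G b p}), Sg G x.1 (Φ^[k + 1] x).1 := by
    intro k
    induction k with
    | zero => intro x; exact hΦ x
    | succ k ih =>
      intro x
      rw [Function.iterate_succ_apply]
      exact (hΦ x).trans (ih (Φ x))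
  have main : ∀ m n : ℕ, m < n → Φ^[m] ⟨p₀, hl₀, hp₀⟩ = Φ^[n] ⟨p₀, hl₀, hp₀⟩ → ∃ p, (G.lf p = true ∧ S G b p) ∧ Sg G p p := by
    intro m n hlt he
    obtain ⟨k, rfl⟩ : ∃ k, n = (k + 1) + m := ⟨n - m - 1, by omega⟩
    rw [Function.iterate_add_apply] at he
    have h3 := key k (Φ^[m] ⟨p₀, hl₀, hp₀⟩)
    rw [← he] at h3
    exact ⟨_, (Φ^[m] ⟨p₀, hl₀, hp₀⟩).2, h3⟩
  rcases lt_or_gt_of_ne hmn with h | h
  · exact main m n h he
  · exact main n m h he.symm

/-- the colours of the five columns -/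
def col (G : Sh P) (c : Face G → ℂ) (X Y : ℂ) (x : P × P) : ℕ → ℂ
  | 0 => X
  | 1 => c (Lf G x.1)
  | 2 => c (Rf G x.1)
  | 3 => c (Rf G x.2)
  | _ => Y

/-- the faces between the circles match -/
def Inv (G : Sh P) (b r : P) (x : P × P) : Prop := S G b x.1 ∧ S G r x.2 ∧ Rf G x.1 = Lf G x.2

theorem Inv.st [Fintype P] (ho : ∀ i, G.op i ≠ i) {b r : P} {x : P × P} (h : Inv G b r x) {a : ℕ} (ha : Ok G x a) : Inv G b r (st G x a) := by
  obtain ⟨h1, h2, h3⟩ := h
  rcases ha with ⟨rfl, ha⟩ | ⟨rfl, ha, ha'⟩ | ⟨rfl, ha⟩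
  · exact ⟨S_sq h1, h2, (left_E ho ha).trans h3⟩
  · refine ⟨S_sq h1, S_sq h2, ?_⟩
    show Rf G (sq G x.1) = Lf G (sq G x.2)
    rw [corner_N (right_lf ho ha), op_sq, ha']
  · exact ⟨h1, S_sq h2, h3.trans (right_W ho ha).symm⟩

/-- one letter of a colouring -/
theorem col_st (ho : ∀ i, G.op i ≠ i) {s : ℂ} {c : Face G → ℂ} (hc : Col G s c) {b r : P} {X Y : ℂ}
    (hX : ∀ e, S G b e → G.lf (G.nxt e) = true → c (Lf G (G.nxt e)) = X)
    (hY : ∀ e, S G r e → G.lf (G.nxt e) = false → c (Rf G (G.nxt e)) = Y) {x : P × P} (h : Inv G b r x) {a : ℕ} (ha : Ok G x a) :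
    (∀ j ≤ 4, j ≠ a + 1 → col G c X Y (st G x a) j = col G c X Y x j) ∧
      col G c X Y (st G x a) (a + 1) + s ^ 2 * col G c X Y x (a + 1) = s * (col G c X Y x a + col G c X Y x (a + 2)) := by
  obtain ⟨h1, h2, h3⟩ := h
  rcases ha with ⟨rfl, ha⟩ | ⟨rfl, ha, ha'⟩ | ⟨rfl, ha⟩
  · obtain ⟨e1, e2⟩ := hc.left ho ha
    refine ⟨fun j hj hj' => ?_, ?_⟩
    · interval_cases j
      · rfl
      · exact absurd rfl hj'
      · show c (Rf G (sq G x.1)) = c (Rf G x.1)
        rw [e2]
      · rfl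
      · rfl
    · show c (Lf G (sq G x.1)) + s ^ 2 * c (Lf G x.1) = s * (X + c (Rf G x.1))
      rw [e1, hX _ h1 ha]
  · obtain ⟨e1, e2⟩ := hc.right ho ha
    have hl : G.lf (G.nxt x.2) = true := by
      have h4 : G.nxt x.2 = G.op (G.nxt x.1) := by rw [ha', op_sq]
      rw [h4, lf_op' ho, ha]
      rfl
    have e3 : Rf G (G.nxt x.1) = Rf G x.2 := by rw [ha', left_E ho hl]
    refine ⟨fun j hj hj' => ?_, ?_⟩
    · interval_cases j
      · rfl
      · show c (Lf G (sq G x.1)) = c (Lf G x.1)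
        rw [e2]
      · exact absurd rfl hj'
      · show c (Rf G (sq G x.2)) = c (Rf G x.2)
        rw [left_E ho hl]
      · rfl
    · show c (Rf G (sq G x.1)) + s ^ 2 * c (Rf G x.1) = s * (c (Lf G x.1) + c (Rf G x.2))
      rw [e1, e3]
  · obtain ⟨e1, e2⟩ := hc.right ho ha
    refine ⟨fun j hj hj' => ?_, ?_⟩
    · interval_cases j
      · rfl
      · rfl
      · rfl
      · exact absurd rfl hj'
      · rfl
    · show c (Rf G (sq G x.2)) + s ^ 2 * c (Rf G x.2) = s * (c (Rf G x.1) + Y)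
      rw [e1, hY _ h2 ha, h3]

theorem val_lt : ∀ (w : List ℕ) (x : P × P), Val G x w → ∀ a ∈ w, a < 3
  | a :: w, x, hv, a', h => by
    rcases List.mem_cons.1 h with rfl | h
    · rcases hv.1 with ⟨rfl, -⟩ | ⟨rfl, -, -⟩ | ⟨rfl, -⟩ <;> norm_num
    · exact val_lt w _ hv.2 a' h

/-- a point of the circle is reached before the return -/
theorem reach [Fintype P] {a e : P} {N : ℕ} (hN : 0 < N) (h : (sq G)^[N] a = a) (he : S G a e) : ∃ i < N, (sq G)^[i] a = e := by
  obtain ⟨n, rfl⟩ := iter_S he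
  refine ⟨n % N, Nat.mod_lt _ hN, ?_⟩
  conv_rhs => rw [← Nat.mod_add_div n N]
  rw [Function.iterate_add_apply, Function.iterate_mul]
  congr 1
  exact (Function.iterate_fixed h _).symm

/-- **Two adjacent two-sided circles between two one-sided circles.** -/
theorem loc_pair [Fintype P] (hG : Plane G) {s : ℂ} (hs : Sec s) {c : Face G → ℂ} (hc : Col G s c) {b r x y : P}
    (hb : TwoSided G b) (hr : TwoSided G r) (hx : OneSided G x) (hy : OneSided G y)
    (h1 : Only G true b r) (h2 : Only G false r b) (h3 : Only G false b x) (h4 : Only G true r y) :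
    (∀ e, S G b e → c (Lf G (sq G e)) = c (Lf G e) ∧ c (Rf G (sq G e)) = c (Rf G e)) ∧
      (∀ e, S G r e → c (Lf G (sq G e)) = c (Lf G e) ∧ c (Rf G (sq G e)) = c (Rf G e)) := by
  have ho := hG.cross
  obtain ⟨p, ⟨hl, hp⟩, w, hv, hf, h1w⟩ := exists_closed hG hb h1 h2
  have hrp : S G r (G.op p) := h1 p hp hl
  -- the caps
  obtain ⟨e₀, he₀, hl₀⟩ := letter_of_two ho hb true
  have hx₀ : S G x (G.nxt e₀) := only_letter ho h3 he₀ hl₀
  have hcx := cap_of_one ho hx hx₀
  rw [hl₀] at hcx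
  obtain ⟨f₀, hf₀, hm₀⟩ := letter_of_two ho hr false
  have hy₀ : S G y (G.nxt f₀) := only_letter ho h4 hf₀ hm₀
  have hcy := cap_of_one ho hy hy₀
  rw [hm₀] at hcy
  have hX : ∀ e, S G b e → G.lf (G.nxt e) = true → c (Lf G (G.nxt e)) = c (Lf G x) := by
    intro e he hle
    have h5 := cap_same ho hcx (only_letter ho h3 he hle)
    rw [Fc_true, Fc_true] at h5
    rw [h5]
  have hY : ∀ e, S G r e → G.lf (G.nxt e) = false → c (Rf G (G.nxt e)) = c (Rf G y) := by
    intro e he hle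
    have h5 := cap_same ho hcy (only_letter ho h4 he hle)
    rw [Fc_false, Fc_false] at h5
    rw [h5]
  -- the colouring of the word
  have hinv : ∀ t ≤ w.length, Inv G b r (tr G (p, G.op p) w t) := by
    intro t
    induction t with
    | zero =>
      intro _
      rw [tr_zero]
      exact ⟨hp, hrp, corner_N hl⟩
    | succ t ih =>
      intro ht
      rw [tr_succ _ _ _ (by omega)]
      exact (ih (by omega)).st ho (Val.ok' _ _ hv t (by omega))
  set v : ℕ → ℕ → ℂ := fun t => col G c (c (Lf G x)) (c (Rf G y)) (tr G (p, G.op p) w t) with hvdef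
  have hst : Steps s 3 w v := by
    intro t ht
    simp only [hvdef]
    rw [tr_succ _ _ _ ht]
    exact col_st ho hc hX hY (hinv t ht.le) (Val.ok' _ _ hv t ht)
  have hfl : tr G (p, G.op p) w w.length = (p, G.op p) := by rw [tr_length, hf]
  have hper : ∀ j ≤ 3 + 1, v w.length j = v 0 j := by
    intro j _
    simp only [hvdef, hfl, tr_zero]
  -- all letters
  have hb1 : (sq G)^[nb w] p = p := by
    have := fin_fst (G := G) w (p, G.op p)
    rw [hf] at this
    exact this.symm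
  have hr1 : (sq G)^[nr w] (G.op p) = G.op p := by
    have := fin_snd (G := G) w (p, G.op p)
    rw [hf] at this
    exact this.symm
  have hb0 : 0 < nb w := List.length_pos_of_mem (List.mem_filter.2 ⟨h1w, by simp⟩)
  have hr0 : 0 < nr w := List.length_pos_of_mem (List.mem_filter.2 ⟨h1w, by simp⟩)
  have covb : ∀ e, S G b e → ∃ t, ∃ h : t < w.length, (tr G (p, G.op p) w t).1 = e ∧ w[t] ≤ 1 := by
    intro e he
    obtain ⟨i, hi, rfl⟩ := reach hb0 hb1 (hp.symm.trans he)
    exact cover_fst w (p, G.op p) i hi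
  have covr : ∀ e, S G r e → ∃ t, ∃ h : t < w.length, (tr G (p, G.op p) w t).2 = e ∧ w[t] ≠ 0 := by
    intro e he
    obtain ⟨i, hi, rfl⟩ := reach hr0 hr1 (hrp.symm.trans he)
    exact cover_snd w (p, G.op p) i hi
  have hall : ∀ a < 3, a ∈ w := by
    intro a ha
    interval_cases a
    · obtain ⟨t, ht, h5, h6⟩ := covb e₀ he₀
      rcases Val.ok' _ _ hv t ht with ⟨h7, -⟩ | ⟨-, h8, -⟩ | ⟨h7, -⟩
      · rw [← h7]; exact List.getElem_mem ht
      · rw [h5, hl₀] at h8; cases h8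
      · omega
    · exact h1w
    · obtain ⟨t, ht, h5, h6⟩ := covr f₀ hf₀
      rcases Val.ok' _ _ hv t ht with ⟨h7, -⟩ | ⟨-, h8, h9⟩ | ⟨h7, -⟩
      · omega
      · exfalso
        have h10 : G.nxt f₀ = G.op (G.nxt (tr G (p, G.op p) w t).1) := by rw [h9, h5, op_sq]
        rw [h10, lf_op' ho, h8] at hm₀
        cases hm₀
      · rw [← h7]; exact List.getElem_mem ht
  obtain ⟨α, β, hab⟩ := colour hs (n := 3) le_rfl w (val_lt w _ hv) hall v hst hper
  -- conclusion
  have kb : ∀ e, S G b e → c (Lf G e) = α * s ^ 1 + β * s⁻¹ ^ 1 ∧ c (Rf G e) = α * s ^ 2 + β * s⁻¹ ^ 2 := by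
    intro e he
    obtain ⟨t, ht, h5, -⟩ := covb e he
    have e1 := hab t ht.le 1 (by norm_num)
    have e2 := hab t ht.le 2 (by norm_num)
    simp only [hvdef, col, h5] at e1 e2
    exact ⟨e1, e2⟩
  have kr : ∀ e, S G r e → c (Lf G e) = α * s ^ 2 + β * s⁻¹ ^ 2 ∧ c (Rf G e) = α * s ^ 3 + β * s⁻¹ ^ 3 := by
    intro e he
    obtain ⟨t, ht, h5, -⟩ := covr e he
    have e1 := hab t ht.le 2 (by norm_num)
    have e2 := hab t ht.le 3 (by norm_num)
    have e3 := (hinv t ht.le).2.2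
    simp only [hvdef, col, h5] at e1 e2
    rw [e3, h5] at e1
    exact ⟨e1, e2⟩
  exact ⟨fun e he => ⟨(kb _ (S_sq he)).1.trans (kb e he).1.symm, (kb _ (S_sq he)).2.trans (kb e he).2.symm⟩,
    fun e he => ⟨(kr _ (S_sq he)).1.trans (kr e he).1.symm, (kr _ (S_sq he)).2.trans (kr e he).2.symm⟩⟩

/-- **Rigid circles of the third kind.** -/
theorem locP [Fintype P] (hG : Plane G) {s : ℂ} (hs : Sec s) {c : Face G → ℂ} (hc : Col G s c) {a : P} (h : RigP G a) {e : P}
    (he : Same G a e) : c (Lf G (sq G e)) = c (Lf G e) ∧ c (Rf G (sq G e)) = c (Rf G e) := by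
  obtain ⟨ha, d, r, x, y, hr, hx, hy, h1, h2, h3, h4⟩ := h
  cases d with
  | true => exact (loc_pair hG hs hc ha hr hx hy h1 h2 h3 h4).1 e he
  | false => exact (loc_pair hG hs hc hr ha hy hx h2 h1 h4 h3).2 e he

end Pool.Agent.Helper29.LocP
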