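import Pool.Agent.Helper60.EV2.Schur
import Pool.Agent.Helper60.EV2.Val
import Pool.Agent.Helper29.EV2.Lab

/-!
# EV3, block (7b): the walk determinant of a cut shadow as a label determinant

`G`: a shadow, `C`: a set of cut edges (the edge `e` leaves the passage `e` and enters the passage `nxt e`), `tau`: a time,
strictly increasing along the edges outside `C`. `lb e`: the label of the Seifert visit leaving along the
edge `e` (`lb (op (nxt e)) = e` for `e ∈ C` and `= lb e` for `e ∉ C`).
`sch`: the walk determinant of the positive diagram is `det (1 + single x0 x0 1 - E * Qw (s ^ 2) w)`, `w`: the word of the pairs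
`(lb (op c), lb c)` in the order of time, `E x l = 1` iff `l = lb x`.
-/

set_option autoImplicit false

namespace Pool.Agent.Helper29.PD

open Matrix Pool.Agent.Helper85.Exp Pool.Agent.Helper60.EV2 Pool.Agent.Helper29.Lab

section lists

variable {ι R : Type} [Fintype ι] [DecidableEq ι] [CommRing R]

omit [Fintype ι] in
theorem Um_row {t : R} {i j l : ι} (hi : i ≠ l) (hj : j ≠ l) (x : ι) :
    Um t i j l x = if l = x then 1 else 0 := by
  unfold Um Rm
  rw [Matrix.add_apply, vecMulVec_apply, one_apply]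
  simp [Pi.single_apply, Ne.symm hi, Ne.symm hj]

theorem Qw_row {t : R} {l : ι} : ∀ (w : List (ι × ι)), (∀ p ∈ w, p.1 ≠ l ∧ p.2 ≠ l) →
    ∀ x, Qw t w l x = if l = x then 1 else 0
  | [], _, x => by simp [Qw, one_apply]
  | p :: w, h, x => by
    have h1 := Qw_row w (t := t) (fun q hq => h q (by simp [hq]))
    have h2 := h p (by simp)
    rw [Qw, Matrix.mul_apply, Finset.sum_eq_single l]
    · rw [h1, if_pos rfl, one_mul, Um_row h2.1 h2.2]
    · intro y _ hy
      rw [h1, if_neg (Ne.symm hy), zero_mul]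
    · intro h
      exact absurd (Finset.mem_univ _) h

theorem Qw_row_mul {t : R} {l : ι} (w : List (ι × ι)) (h : ∀ p ∈ w, p.1 ≠ l ∧ p.2 ≠ l)
    (M : Matrix ι ι R) (x : ι) : (Qw t w * M) l x = M l x := by
  rw [Matrix.mul_apply, Finset.sum_eq_single l]
  · rw [Qw_row w h, if_pos rfl, one_mul]
  · intro y _ hy
    rw [Qw_row w h, if_neg (Ne.symm hy), zero_mul]
  · intro h
    exact absurd (Finset.mem_univ _) h

theorem Um_row_left {t : R} {i j : ι} (h : i ≠ j) (M : Matrix ι ι R) (x : ι) :
    (Um t i j * M) i x = t * M j x := by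
  unfold Um Rm
  rw [Matrix.add_mul, Matrix.one_mul, Matrix.vecMulVec_mul, Matrix.add_apply, vecMulVec_apply,
    Matrix.sub_vecMul]
  simp [h]

theorem Um_row_right {t : R} {i j : ι} (h : i ≠ j) (M : Matrix ι ι R) (x : ι) :
    (Um t i j * M) j x = M i x + (1 - t) * M j x := by
  unfold Um Rm
  rw [Matrix.add_mul, Matrix.one_mul, Matrix.vecMulVec_mul, Matrix.add_apply, vecMulVec_apply,
    Matrix.sub_vecMul]
  simp [h.symm]
  ring

end lists

variable {P : Type} [Fintype P] [DecidableEq P]

/-- the data of a cut shadow with labels -/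
structure Cutd (G : Sh P) (C : Finset P) (tau : P → ℕ) (lb : P → {x // x ∈ C}) : Prop where
  op_ne : ∀ p, G.op p ≠ p
  top : ∀ p, tau (G.op p) = tau p
  tnx : ∀ e, e ∉ C → tau e < tau (G.nxt e)
  tinj : ∀ p q, tau p = tau q → q = p ∨ q = G.op p
  lbC : ∀ e (h : e ∈ C), lb (G.op (G.nxt e)) = ⟨e, h⟩
  lbN : ∀ e, e ∉ C → lb (G.op (G.nxt e)) = lb e

variable {G : Sh P} {C : Finset P} {tau : P → ℕ} {lb : P → {x // x ∈ C}}

omit [Fintype P] [DecidableEq P] in
theorem Cutd.prev (h : Cutd G C tau lb) (e : P) :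
    (∃ x : {x // x ∈ C}, lb e = x ∧ G.nxt x.1 = G.op e) ∨
      ∃ f, f ∉ C ∧ G.nxt f = G.op e ∧ lb e = lb f ∧ tau f < tau e := by
  set f := G.nxt.symm (G.op e) with hf
  have h1 : G.nxt f = G.op e := by rw [hf, Equiv.apply_symm_apply]
  have h2 : G.op (G.nxt f) = e := by rw [h1, G.op_op]
  by_cases hC : f ∈ C
  · left
    refine ⟨⟨f, hC⟩, ?_, h1⟩
    rw [← h.lbC f hC, h2]
  · right
    refine ⟨f, hC, h1, ?_, ?_⟩
    · rw [← h.lbN f hC, h2]
    · have := h.tnx f hC
      rwa [h1, h.top] at this

omit [Fintype P] [DecidableEq P] in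
theorem Cutd.first (h : Cutd G C tau lb) : ∀ (N : ℕ) (e : P), tau e = N →
    tau (G.nxt (lb e).1) ≤ tau e := by
  intro N
  induction N using Nat.strong_induction_on with
  | _ N ih =>
    intro e he
    rcases h.prev e with ⟨x, hx, hx'⟩ | ⟨f, _, _, hf, hlt⟩
    · rw [hx, hx', h.top]
    · rw [hf]
      exact (ih (tau f) (by omega) f rfl).trans hlt.le

omit [Fintype P] [DecidableEq P] in
theorem Cutd.ne_op_of (h : Cutd G C tau lb) (N : ℕ)
    (ih : ∀ e f, tau f < N → lb e = lb f → tau e ≤ tau f → e = f ∨ (e ∉ C ∧ tau (G.nxt e) ≤ tau f))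
    (e : P) (he : tau e = N) : lb e ≠ lb (G.op e) := by
  intro hl
  have ht := h.top e
  rcases h.prev e with ⟨x, hx, hx'⟩ | ⟨f, hfC, hf, hfl, hft⟩ <;>
    rcases h.prev (G.op e) with ⟨y, hy, hy'⟩ | ⟨g, hgC, hg, hgl, hgt⟩
  · have : x = y := by rw [← hx, ← hy, hl]
    rw [← this, hx', G.op_op] at hy'
    exact h.op_ne e hy'
  · have h1 := h.first _ g rfl
    rw [← hgl, ← hl, hx, hx', h.top] at h1
    omega
  · have h1 := h.first _ f rfl
    rw [← hfl, hl, hy, hy', G.op_op] at h1
    omega
  · rw [G.op_op] at hg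
    have key : ∀ a b : P, lb a = lb b → tau a ≤ tau b → tau b < N → tau (G.nxt a) = N → a = b := by
      intro a b hab htab hb ha
      rcases ih a b hb hab htab with h1 | h1
      · exact h1
      · omega
    have hfg : lb f = lb g := by rw [← hfl, ← hgl, hl]
    have e1 : f = g := by
      rcases le_total (tau f) (tau g) with h1 | h1
      · exact key f g hfg h1 (by omega) (by rw [hf]; omega)
      · exact (key g f hfg.symm h1 (by omega) (by rw [hg]; omega)).symm
    rw [e1, hg] at hf
    exact h.op_ne e hf.symm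

omit [Fintype P] [DecidableEq P] in
theorem Cutd.order_aux (h : Cutd G C tau lb) : ∀ (N : ℕ) (e f : P), tau f = N → lb e = lb f →
    tau e ≤ tau f → e = f ∨ (e ∉ C ∧ tau (G.nxt e) ≤ tau f) := by
  intro N
  induction N using Nat.strong_induction_on with
  | _ N ih =>
    intro e f hf hl ht
    have hne := h.ne_op_of N (fun e f hfN h1 h2 => ih _ hfN e f rfl h1 h2)
    rcases ht.lt_or_eq with hlt | heq
    · rcases h.prev f with ⟨x, hx, hx'⟩ | ⟨g, hgC, hg, hgl, hgt⟩
      · have h1 := h.first _ e rfl
        rw [hl, hx, hx', h.top] at h1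
        omega
      · rcases le_or_gt (tau e) (tau g) with h1 | h1
        · rcases ih (tau g) (by omega) e g rfl (hl.trans hgl) h1 with h2 | h2
          · right
            rw [h2]
            refine ⟨hgC, ?_⟩
            rw [hg, h.top]
          · right
            exact ⟨h2.1, by omega⟩
        · rcases ih (tau e) (by omega) g e rfl (hgl.symm.trans hl.symm) h1.le with h2 | h2
          · rw [h2] at h1
            omega
          · have h3 := h2.2
            rw [hg, h.top] at h3
            omega
    · rcases h.tinj e f heq with h1 | h1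
      · exact Or.inl h1.symm
      · exact absurd (h1 ▸ hl) (hne e (by omega))

omit [Fintype P] [DecidableEq P] in
theorem Cutd.order (h : Cutd G C tau lb) {e f : P} (hl : lb e = lb f) (ht : tau e ≤ tau f) :
    e = f ∨ (e ∉ C ∧ tau (G.nxt e) ≤ tau f) := h.order_aux _ e f rfl hl ht

omit [Fintype P] [DecidableEq P] in
theorem Cutd.lb_ne (h : Cutd G C tau lb) (e : P) : lb e ≠ lb (G.op e) :=
  h.ne_op_of (tau e) (fun _ _ _ h1 h2 => h.order h1 h2) e rfl

/-- the pair of a crossing -/
def pr (G : Sh P) (lb : P → {x // x ∈ C}) (c : P) : {x // x ∈ C} × {x // x ∈ C} := (lb (G.op c), lb c)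

omit [Fintype P] [DecidableEq P] in
/-- the crossings strictly between `e` and `T` do not touch the label of `e` -/
theorem Cutd.untouched (h : Cutd G C tau lb) (e : P) (Z : List P)
    (hZ : ∀ c ∈ Z, tau e < tau c ∧ (e ∉ C → tau c < tau (G.nxt e))) :
    ∀ p ∈ Z.map (pr G lb), p.1 ≠ lb e ∧ p.2 ≠ lb e := by
  intro p hp
  obtain ⟨c, hc, rfl⟩ := List.mem_map.1 hp
  have h1 := hZ c hc
  have key : ∀ d : P, tau d = tau c → lb d ≠ lb e := by
    intro d hd hl
    rcases h.order hl.symm (by omega) with h2 | h2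
    · rw [h2] at h1
      omega
    · have := h1.2 h2.1
      omega
  exact ⟨key _ (h.top c), key _ rfl⟩

omit [Fintype P] [DecidableEq P] in
theorem Cutd.split (h : Cutd G C tau lb) {L : List P} (hL : ∀ p, p ∈ L ↔ G.lf p = true)
    (hs : L.Pairwise fun a b => tau a < tau b) (e : P) :
    ∃ (c : P) (X Z : List P), L = X ++ c :: Z ∧ G.lf c = true ∧ (c = e ∨ c = G.op e) ∧
      (∀ d ∈ X, tau d < tau e) ∧ (∀ d ∈ Z, tau e < tau d) := by
  have hc : ∃ c, G.lf c = true ∧ (c = e ∨ c = G.op e) := by
    by_cases he : G.lf e = true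
    · exact ⟨e, he, Or.inl rfl⟩
    · refine ⟨G.op e, ?_, Or.inr rfl⟩
      rw [G.lf_op e (h.op_ne e)]
      simpa using he
  obtain ⟨c, hc1, hc2⟩ := hc
  obtain ⟨X, Z, hXZ⟩ := List.append_of_mem ((hL c).2 hc1)
  have htc : tau c = tau e := by
    rcases hc2 with rfl | rfl
    · rfl
    · exact h.top e
  rw [hXZ, List.pairwise_append, List.pairwise_cons] at hs
  refine ⟨c, X, Z, hXZ, hc1, hc2, fun d hd => ?_, fun d hd => ?_⟩
  · rw [← htc]
    exact hs.2.2 d hd c (by simp)
  · rw [← htc]
    exact hs.2.1.1 d hd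

/-- the word of the crossings before the time `T` -/
def pre (G : Sh P) (tau : P → ℕ) (lb : P → {x // x ∈ C}) (L : List P) (T : ℕ) : List ({x // x ∈ C} × {x // x ∈ C}) :=
  (L.filter fun c => tau c < T).map (pr G lb)

section main

variable {R : Type} [CommRing R]

omit [Fintype P] in
/-- one step along the edge `e` -/
theorem Cutd.step (h : Cutd G C tau lb) {L : List P} (hL : ∀ p, p ∈ L ↔ G.lf p = true)
    (hs : L.Pairwise fun a b => tau a < tau b) (t : R) (e : P) (T : ℕ) (hT : tau e < T)
    (hT' : e ∉ C → T ≤ tau (G.nxt e)) (x : {x // x ∈ C}) :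
    Qw t (pre G tau lb L T) (lb e) x =
      if G.lf e = true then Qw t (pre G tau lb L (tau e)) (lb (G.op e)) x +
        (1 - t) * Qw t (pre G tau lb L (tau e)) (lb e) x
      else t * Qw t (pre G tau lb L (tau e)) (lb (G.op e)) x := by
  obtain ⟨c, X, Z, hXZ, hc1, hc2, hX, hZ⟩ := h.split hL hs e
  have htc : tau c = tau e := by
    rcases hc2 with rfl | rfl
    · rfl
    · exact h.top e
  have e1 : L.filter (fun c => decide (tau c < tau e)) = X := by
    rw [hXZ, List.filter_append, List.filter_cons_of_neg (by simp [htc])]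
    rw [List.filter_eq_self.2 fun d hd => by simpa using hX d hd,
      List.filter_eq_nil_iff.2 fun d hd => by simpa using (hZ d hd).le, List.append_nil]
  have e2 : L.filter (fun c => decide (tau c < T)) = X ++ c :: Z.filter (fun c => decide (tau c < T)) := by
    rw [hXZ, List.filter_append, List.filter_cons_of_pos (by simpa [htc] using hT)]
    rw [List.filter_eq_self.2 fun d hd => by simpa using (hX d hd).trans hT]
  have e3 : Qw t (pre G tau lb L T) = Qw t ((Z.filter fun c => decide (tau c < T)).map (pr G lb)) *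
      (Um t (lb (G.op c)) (lb c) * Qw t (pre G tau lb L (tau e))) := by
    unfold pre
    rw [e1, e2, List.map_append, List.map_cons, Qw_append, Qw, Matrix.mul_assoc]
    rfl
  rw [e3, Qw_row_mul _ (h.untouched e _ ?_)]
  · rcases hc2 with rfl | rfl
    · rw [if_pos hc1, Um_row_right (h.lb_ne c).symm]
    · have : ¬ G.lf e = true := by
        rw [G.lf_op e (h.op_ne e)] at hc1
        simpa using hc1
      rw [if_neg this, G.op_op, Um_row_left (h.lb_ne e)]
  · intro d hd
    rw [List.mem_filter] at hd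
    refine ⟨hZ d hd.1, fun he => ?_⟩
    have := hT' he
    have h2 : tau d < T := by simpa using hd.2
    omega

/-- the transitions into a passage -/
theorem sum_B (G : Sh P) (hop : ∀ p, G.op p ≠ p) (s t' : R) (D : Dg G) (hD : ∀ i, D.st i = .pos)
    (y : P → R) (e : P) :
    ∑ p', y p' * B G.nxt G.op (kd s t' D) p' (G.nxt e) =
      if G.lf e = true then y e + (1 - s ^ 2) * y (G.op e) else s ^ 2 * y e := by
  have hk : ∀ i, kd s t' D i = if G.lf i = true then .un else .ov (s ^ 2) := by
    intro i
    unfold kd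
    rw [hD i]
  have hB : ∀ p', B G.nxt G.op (kd s t' D) p' (G.nxt e) =
      if p' = e then (if G.lf e = true then 1 else s ^ 2)
      else if p' = G.op e then (if G.lf e = true then 1 - s ^ 2 else 0) else 0 := by
    intro p'
    unfold B
    rw [Matrix.submatrix_apply, id_eq, Equiv.symm_apply_apply]
    unfold U
    rw [hk p']
    by_cases h1 : p' = e
    · subst h1
      rw [if_pos rfl]
      by_cases h2 : G.lf p' = true
      · simp [h2]
      · simp [h2, (hop p').symm]
    · rw [if_neg h1]
      by_cases h3 : p' = G.op e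
      · rw [if_pos h3]
        have h4 := G.lf_op e (hop e)
        rw [← h3] at h4
        have h5 : e = G.op p' := by rw [h3, G.op_op]
        by_cases h2 : G.lf e = true
        · rw [h2] at h4
          simp [h4, h2, Ne.symm h1, ← h5]
        · have h6 : G.lf e = false := by simpa using h2
          rw [h6] at h4
          simp [h4, h6, Ne.symm h1]
      · have h4 : e ≠ G.op p' := by
          intro h
          exact h3 (by rw [h, G.op_op])
        rw [if_neg h3]
        by_cases h2 : G.lf p' = true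
        · simp [h2, Ne.symm h1]
        · simp [h2, Ne.symm h1, h4]
  rw [Finset.sum_congr rfl fun p' _ => by rw [hB p']]
  rw [← Finset.sum_subset (Finset.subset_univ {e, G.op e})]
  · rw [Finset.sum_pair (hop e).symm, if_pos rfl, if_neg (hop e), if_pos rfl]
    split_ifs <;> ring
  · intro p' _ hp'
    simp only [Finset.mem_insert, Finset.mem_singleton, not_or] at hp'
    rw [if_neg hp'.1, if_neg hp'.2, mul_zero]

/-- the gluing of the arcs -/
def Em (lb : P → {x // x ∈ C}) (R : Type) [CommRing R] : Matrix {x // x ∈ C} {x // x ∈ C} R :=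
  Matrix.of fun x l => if l = lb x.1 then 1 else 0

/-- **Block (7b).** -/
theorem sch (h : Cutd G C tau lb) {L : List P} (hL : ∀ p, p ∈ L ↔ G.lf p = true)
    (hs : L.Pairwise fun a b => tau a < tau b) (s t' : R) (D : Dg G) (hD : ∀ i, D.st i = .pos)
    (x0 : {x // x ∈ C}) :
    W G.nxt G.op (kd s t' D) (G.nxt x0) =
      ((1 + single x0 x0 1) - Em lb R * Qw (s ^ 2) (L.map (pr G lb))).det := by
  classical
  set Y : {x // x ∈ C} → P → R := fun x p => Qw (s ^ 2) (pre G tau lb L (tau p)) (lb (G.op p)) x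
    with hY
  have hTmax : ∃ T : ℕ, ∀ p, tau p < T :=
    ⟨Finset.univ.sup tau + 1, fun p => Nat.lt_succ_of_le (Finset.le_sup (Finset.mem_univ p))⟩
  obtain ⟨T, hT⟩ := hTmax
  have key : ∀ (x : {x // x ∈ C}) (e : P) (T : ℕ), tau e < T → (e ∉ C → T ≤ tau (G.nxt e)) →
      ∑ p', Y x p' * B G.nxt G.op (kd s t' D) p' (G.nxt e) = Qw (s ^ 2) (pre G tau lb L T) (lb e) x := by
    intro x e T hT hT'
    rw [sum_B G h.op_ne s t' D hD, h.step hL hs (s ^ 2) e T hT hT']
    simp only [hY, h.top, G.op_op]
  have hschur := det_schur (B G.nxt G.op (kd s t' D)) (fun x : {x // x ∈ C} => G.nxt x.1)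
    (fun x y hxy => Subtype.ext (G.nxt.injective hxy)) Y ?_ ?_ tau ?_ x0
  · unfold W
    rw [hschur]
    have e1 : (Matrix.of fun x x' => ∑ p', Y x p' * B G.nxt G.op (kd s t' D) p' (G.nxt x'.1) :
        Matrix {x // x ∈ C} {x // x ∈ C} R) = (Em lb R * Qw (s ^ 2) (L.map (pr G lb)))ᵀ := by
      ext x x'
      rw [Matrix.transpose_apply, Matrix.of_apply, key x x'.1 T (hT _) (fun h => absurd x'.2 h),
        Matrix.mul_apply]
      have e2 : pre G tau lb L T = L.map (pr G lb) := by
        unfold pre
        rw [List.filter_eq_self.2 fun d _ => by simpa using hT d]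
      rw [e2]
      simp [Em, Matrix.of_apply]
    rw [e1, ← Matrix.det_transpose (1 + single x0 x0 1 - _)]
    congr 1
    rw [Matrix.transpose_sub, Matrix.transpose_add, Matrix.transpose_one, Matrix.transpose_single]
    abel
  · intro x x'
    rw [hY]
    beta_reduce
    rw [h.lbC x'.1 x'.2]
    rw [Qw_row]
    · by_cases hxx : x = x'
      · simp [hxx]
      · have : ¬ x' = x := fun e => hxx e.symm
        simp [hxx, this]
    · intro p hp
      unfold pre at hp
      obtain ⟨c, hc, rfl⟩ := List.mem_map.1 hp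
      rw [List.mem_filter] at hc
      have h1 : tau c < tau (G.nxt x'.1) := by simpa using hc.2
      have h2 : ∀ d, tau d = tau c → lb d ≠ x' := by
        intro d hd hl
        have h3 := h.first _ d rfl
        rw [hl] at h3
        omega
      exact ⟨h2 _ (h.top c), h2 _ rfl⟩
  · intro x p hp
    obtain ⟨e, rfl⟩ := G.nxt.surjective p
    have he : e ∉ C := fun he => hp ⟨e, he⟩ rfl
    rw [key x e (tau (G.nxt e)) (h.tnx e he) (fun _ => le_rfl)]
    rw [hY]
    beta_reduce
    rw [h.lbN e he]
  · intro p p' hp hp' hle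
    obtain ⟨e, rfl⟩ := G.nxt.surjective p'
    have he : e ∉ C := fun he => hp' ⟨e, he⟩ rfl
    have h1 := h.tnx e he
    have h2 : p ≠ e := by
      rintro rfl
      omega
    have h3 : p ≠ G.op e := by
      rintro rfl
      rw [h.top] at hle
      omega
    have h4 : e ≠ G.op p := fun hh => h3 (by rw [hh, G.op_op])
    unfold B
    rw [Matrix.submatrix_apply, id_eq, Equiv.symm_apply_apply]
    unfold U
    cases kd s t' D p with
    | ov q => simp [Ne.symm h2, h4]
    | un => simp [Ne.symm h2]
    | sm => simp [h4]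

end main

end Pool.Agent.Helper29.PD
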